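import Mathlib

/-!
Omega-models of RCA0 and the principles RCOLOR2, DNR, RWKL read in an omega-structure
`(ℕ, I, 0, 1, +, *, <)`, whose set quantifiers range over `I : Set (Set ℕ)`.
-/

set_option autoImplicit false

namespace Pool.Agent.P.MP_c78104_lc

/-- Number terms of second-order arithmetic. -/
inductive Tm : Type
  | var : ℕ → Tm
  | zero : Tm
  | one : Tm
  | add : Tm → Tm → Tm
  | mul : Tm → Tm → Tm

/-- Value of a term in `ℕ`, the number variable `i` having value `v i`. -/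
def Tm.val (v : ℕ → ℕ) : Tm → ℕ
  | .var i => v i
  | .zero => 0
  | .one => 1
  | .add s t => s.val v + t.val v
  | .mul s t => s.val v * t.val v

/-- Bounded-quantifier (Sigma-0-0) formulas of second-order arithmetic:
`s = t`, `s < t`, `t ∈ X_j`, negation, conjunction, `∀ x_i < t, φ`. -/
inductive Fm : Type
  | eq : Tm → Tm → Fm
  | lt : Tm → Tm → Fm
  | mem : Tm → ℕ → Fm
  | not : Fm → Fm
  | and : Fm → Fm → Fm
  | ball : ℕ → Tm → Fm → Fm

/-- Truth of a bounded formula in `ℕ`, the set variable `j` having value `S j` and the number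
variable `i` having value `v i`. -/
def Fm.Holds (S : ℕ → Set ℕ) : Fm → (ℕ → ℕ) → Prop
  | .eq s t, v => s.val v = t.val v
  | .lt s t, v => s.val v < t.val v
  | .mem t j, v => t.val v ∈ S j
  | .not φ, v => ¬ φ.Holds S v
  | .and φ ψ, v => φ.Holds S v ∧ ψ.Holds S v
  | .ball i t φ, v => ∀ x < t.val v, φ.Holds S (Function.update v i x)

/-- Truth of `θ(n, m)`: the number variables `0` and `1` get the values `n` and `m`, the other
variables are parameters. -/
def Fm.Holds₂ (θ : Fm) (S : ℕ → Set ℕ) (v : ℕ → ℕ) (n m : ℕ) : Prop :=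
  θ.Holds S (Function.update (Function.update v 0 n) 1 m)

/-- `(ℕ, I, 0, 1, +, *, <)` is a model of RCA0. The basic arithmetic axioms hold in `ℕ`; the two
schemes are read with number parameters in `ℕ` and set parameters in `I`. -/
structure IsModelRCA0 (I : Set (Set ℕ)) : Prop where
  nonempty : I.Nonempty
  /-- Sigma-0-1 induction for `∃ m, θ(n, m)`. -/
  sigma01_induction : ∀ (θ : Fm) (S : ℕ → Set ℕ) (v : ℕ → ℕ), (∀ j, S j ∈ I) →
    (∃ m, θ.Holds₂ S v 0 m) → (∀ n, (∃ m, θ.Holds₂ S v n m) → ∃ m, θ.Holds₂ S v (n + 1) m) →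
    ∀ n, ∃ m, θ.Holds₂ S v n m
  /-- Delta-0-1 comprehension. -/
  delta01_comprehension : ∀ (θ η : Fm) (S : ℕ → Set ℕ) (v : ℕ → ℕ), (∀ j, S j ∈ I) →
    (∀ n, (∃ m, θ.Holds₂ S v n m) ↔ ∀ m, η.Holds₂ S v n m) →
    ∃ X ∈ I, ∀ n, n ∈ X ↔ ∃ m, θ.Holds₂ S v n m

/-- The assignment whose set of true variables is `ν` satisfies every formula `x ≠ y` of `F`;
the formula `x ≠ y` is coded by `Nat.pair x y`. -/
def Satisfies (ν : Set ℕ) (F : Finset ℕ) : Prop :=
  ∀ x y, Nat.pair x y ∈ F → ¬ (x ∈ ν ↔ y ∈ ν)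

/-- RCOLOR2 holds in `(ℕ, I)`. -/
def RCOLOR2 (I : Set (Set ℕ)) : Prop :=
  ∀ V ∈ I, ∀ C ∈ I, ∀ X ∈ I, V.Infinite → (∀ x y, Nat.pair x y ∈ C → x ∈ V ∧ y ∈ V) →
    (∀ F : Finset ℕ, ↑F ⊆ C → ∃ ν ∈ I, Satisfies ν F) → X ⊆ V → X.Infinite →
    ∃ H ∈ I, H ⊆ X ∧ H.Infinite ∧ ∃ c : Bool, ∀ F : Finset ℕ, ↑F ⊆ C →
      ∃ ν ∈ I, Satisfies ν F ∧ ∀ a ∈ H, (a ∈ ν ↔ c = true)

/-- RWKL holds in `(ℕ, I)`; a binary string `σ : List Bool` is coded by `Encodable.encode σ`. -/
def RWKL (I : Set (Set ℕ)) : Prop :=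
  ∀ T ∈ I, (∀ n ∈ T, ∃ σ : List Bool, Encodable.encode σ = n) →
    (∀ σ τ : List Bool, Encodable.encode (σ ++ τ) ∈ T → Encodable.encode σ ∈ T) → T.Infinite →
    ∃ H ∈ I, H.Infinite ∧ ∃ c : Bool, ∀ n, ∃ σ : List Bool,
      Encodable.encode σ ∈ T ∧ σ.length = n ∧ ∀ i ∈ H, i < n → σ[i]? = some c

/-- Oracle programs: the constructors of `Nat.Partrec.Code` and one oracle call. -/
inductive OCode : Type
  | zero : OCode
  | succ : OCode
  | left : OCode
  | right : OCode
  | oracle : OCode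
  | pair : OCode → OCode → OCode
  | comp : OCode → OCode → OCode
  | prec : OCode → OCode → OCode
  | rfind' : OCode → OCode

/-- The index (Goedel number) of an oracle program; every natural number is the index of exactly
one program. -/
def OCode.index : OCode → ℕ
  | .zero => 0
  | .succ => 1
  | .left => 2
  | .right => 3
  | .oracle => 4
  | .pair f g => 4 * Nat.pair f.index g.index + 5
  | .comp f g => 4 * Nat.pair f.index g.index + 6
  | .prec f g => 4 * Nat.pair f.index g.index + 7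
  | .rfind' f => 4 * f.index + 8

open Classical in
/-- `c.eval Z` is `Φ^Z_e` for `e = c.index`: the clauses of `Nat.Partrec.Code.eval`, the oracle
call returning the characteristic function of `Z`. -/
noncomputable def OCode.eval (Z : Set ℕ) : OCode → ℕ →. ℕ
  | .zero => fun _ => Part.some 0
  | .succ => fun n => Part.some (n + 1)
  | .left => fun n => Part.some n.unpair.1
  | .right => fun n => Part.some n.unpair.2
  | .oracle => fun n => Part.some (if n ∈ Z then 1 else 0)
  | .pair f g => fun n => Nat.pair <$> f.eval Z n <*> g.eval Z n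
  | .comp f g => fun n => g.eval Z n >>= f.eval Z
  | .prec f g => Nat.unpaired fun a n =>
      n.rec (f.eval Z a) fun y IH => IH >>= fun i => g.eval Z (Nat.pair a (Nat.pair y i))
  | .rfind' f => Nat.unpaired fun a m =>
      (Nat.rfind fun n => (fun k => decide (k = 0)) <$> f.eval Z (Nat.pair a (n + m))).map (· + m)

/-- DNR holds in `(ℕ, I)`: for every `Z ∈ I` some function `f` whose graph is in `I` has
`f e ≠ Φ^Z_e(e)` whenever `Φ^Z_e(e)` converges. -/
def DNR (I : Set (Set ℕ)) : Prop :=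
  ∀ Z ∈ I, ∃ f : ℕ → ℕ, {p | ∃ e, p = Nat.pair e (f e)} ∈ I ∧
    ∀ c : OCode, f c.index ∉ c.eval Z c.index

end Pool.Agent.P.MP_c78104_lc
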