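import Pool.Agent.P.MP_c78104_lc.Model

/-!
DNR and RWKL fail in an ideal generated by a chain of oracles that compute no DNR function.
-/

set_option autoImplicit false

namespace Pool.Agent.P.MP_c78104_lc

open Nat.Partrec (Code)

/-- ordinary programs as oracle programs -/
def toO : Code → OCode
  | .zero => .zero
  | .succ => .succ
  | .left => .left
  | .right => .right
  | .pair f g => .pair (toO f) (toO g)
  | .comp f g => .comp (toO f) (toO g)
  | .prec f g => .prec (toO f) (toO g)
  | .rfind' f => .rfind' (toO f)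

theorem eval_toO (Z : Set ℕ) (c : Code) : (toO c).eval Z = c.eval := by
  induction c with
  | zero => rfl
  | succ => rfl
  | left => rfl
  | right => rfl
  | pair f g ihf ihg => simp only [toO, OCode.eval, Code.eval, ihf, ihg]
  | comp f g ihf ihg => simp only [toO, OCode.eval, Code.eval, ihf, ihg]
  | prec f g ihf ihg => simp only [toO, OCode.eval, Code.eval, ihf, ihg]
  | rfind' f ihf => simp only [toO, OCode.eval, Code.eval, ihf]

theorem primrec_index_const : Primrec fun n => (toO (Code.const n)).index := by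
  have : Primrec (Nat.rec 0 fun (_ : ℕ) (k : ℕ) => 4 * Nat.pair 1 k + 6 : ℕ → ℕ) :=
    Primrec.nat_rec₁ 0 (Primrec.nat_add.comp (Primrec.nat_mul.comp (Primrec.const 4)
      (Primrec₂.natPair.comp (Primrec.const 1) Primrec.snd)) (Primrec.const 6)).to₂
  refine this.of_eq fun n => ?_
  induction n with
  | zero => rfl
  | succ n ih => simp only [Code.const, toO, OCode.index, ← ih]

variable {Zs : ℕ → Set ℕ}

theorem ideal_not_dnr (hgood : ∀ s, Good (Zs s)) : ¬ DNR (Ideal Zs) := by
  intro h
  obtain ⟨f, ⟨s, hs⟩, hf⟩ := h (Zs 0) ⟨0, Dec.refl _⟩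
  have hd : Partrec diag := Code.eval_part.comp (Primrec.ofNat Code).to_comp Computable.id
  obtain ⟨u, hu⟩ := Code.exists_code.1 (Partrec.nat_iff.1 hd)
  let c : ℕ → OCode := fun n => toO (u.comp (Code.const n))
  have hc : Primrec fun n => (c n).index :=
    Primrec.nat_add.comp (Primrec.nat_mul.comp (Primrec.const 4)
      (Primrec₂.natPair.comp (Primrec.const (toO u).index) primrec_index_const)) (Primrec.const 6)
  have hre : RE (Zs s) fun p : ℕ × ℕ => f (c p.1).index = p.2 := by
    refine (hs.1.comp (Primrec₂.natPair.comp (hc.comp Primrec.fst) Primrec.snd)).of_eq fun p => ?_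
    simp only [Set.mem_setOf_eq, Nat.pair_eq_pair]
    constructor
    · rintro ⟨e, rfl, h⟩
      exact h.symm
    · intro h
      exact ⟨_, rfl, h.symm⟩
  obtain ⟨n, hn⟩ := hgood s (fun n => f (c n).index) hre
  apply hf (c n)
  simp only [c, eval_toO, Code.eval, Code.eval_const, hu]
  simpa using hn

/-- a list of at least `2 e + 2` distinct numbers -/
def Big (e : ℕ) (D : List ℕ) : Prop :=
  2 * e + 2 ≤ D.length ∧ ∀ i < D.length, ∀ j < D.length, D[i]? = D[j]? → i = j

theorem Big.nodup {e : ℕ} {D : List ℕ} (h : Big e D) : D.Nodup := by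
  rw [List.nodup_iff_getElem?_ne_getElem?]
  intro i j hij hj he
  have := h.2 i (by omega) j hj he
  omega

theorem primrec_big : PrimrecRel Big := by
  refine PrimrecPred.and (Primrec.nat_le.comp (Primrec.nat_add.comp
    (Primrec.nat_double.comp Primrec.fst) (Primrec.const 2))
    (Primrec.list_length.comp Primrec.snd)) ?_
  refine pr_forall_lt (α := ℕ × List ℕ)
    (R := fun p i => ∀ j < p.2.length, p.2[i]? = p.2[j]? → i = j) ?_
    (Primrec.list_length.comp Primrec.snd)
  refine pr_forall_lt (α := (ℕ × List ℕ) × ℕ)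
    (R := fun q j => q.1.2[q.2]? = q.1.2[j]? → q.2 = j) ?_
    (Primrec.list_length.comp (Primrec.snd.comp Primrec.fst))
  have hl : Primrec fun u : ((ℕ × List ℕ) × ℕ) × ℕ => u.1.1.2 :=
    Primrec.snd.comp (Primrec.fst.comp Primrec.fst)
  have hi : Primrec fun u : ((ℕ × List ℕ) × ℕ) × ℕ => u.1.2 := Primrec.snd.comp Primrec.fst
  exact pr_imp (Primrec.eq.comp (Primrec.list_getElem?.comp hl hi)
    (Primrec.list_getElem?.comp hl Primrec.snd)) (Primrec.eq.comp hi Primrec.snd)

/-- the list computed by the diagonal at `e` within `k` steps -/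
def dlist (k e : ℕ) : List ℕ :=
  ((Code.evaln k (Denumerable.ofNat Code e) e).map (Denumerable.ofNat (List ℕ))).getD []

theorem primrec_dlist : Primrec₂ dlist :=
  Primrec.option_getD.comp ((Primrec.option_map₁ (Primrec.ofNat (List ℕ))).comp
    primrec_evaln_diag) (Primrec.const [])

theorem dlist_mono {k k' e : ℕ} (hk : k ≤ k') (h : Big e (dlist k e)) :
    dlist k' e = dlist k e := by
  unfold dlist at h ⊢
  cases h1 : Code.evaln k (Denumerable.ofNat Code e) e with
  | none =>
    rw [h1] at h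
    have := h.1
    simp at this
  | some v =>
    have : Code.evaln k' (Denumerable.ofNat Code e) e = some v := Code.evaln_mono hk h1
    rw [this]

/-- the tree -/
def InTree (σ : List Bool) : Prop :=
  ∀ e < σ.length, Big e (dlist σ.length e) → (∀ x ∈ dlist σ.length e, x < σ.length) →
    ∃ x ∈ dlist σ.length e, ∃ y ∈ dlist σ.length e, ¬ σ[x]? = σ[y]?

theorem primrec_inTree : PrimrecPred InTree := by
  refine pr_forall_lt (α := List Bool) (R := fun σ e => Big e (dlist σ.length e) →
    (∀ x ∈ dlist σ.length e, x < σ.length) →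
    ∃ x ∈ dlist σ.length e, ∃ y ∈ dlist σ.length e, ¬ σ[x]? = σ[y]?) ?_ Primrec.list_length
  have hlen : Primrec fun p : List Bool × ℕ => p.1.length := Primrec.list_length.comp Primrec.fst
  have hd : Primrec fun p : List Bool × ℕ => dlist p.1.length p.2 :=
    primrec_dlist.comp hlen Primrec.snd
  refine pr_imp (primrec_big.comp Primrec.snd hd) (pr_imp ?_ ?_)
  · exact pr_forall_mem (α := List Bool × ℕ) (R := fun p (x : ℕ) => x < p.1.length)
      (Primrec.nat_lt.comp Primrec.snd (hlen.comp Primrec.fst)) hd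
  · refine pr_exists_mem (α := List Bool × ℕ)
      (R := fun p (x : ℕ) => ∃ y ∈ dlist p.1.length p.2, ¬ p.1[x]? = p.1[y]?) ?_ hd
    refine pr_exists_mem (α := (List Bool × ℕ) × ℕ)
      (R := fun q (y : ℕ) => ¬ q.1.1[q.2]? = q.1.1[y]?) ?_ (hd.comp Primrec.fst)
    have hl : Primrec fun u : ((List Bool × ℕ) × ℕ) × ℕ => u.1.1.1 :=
      Primrec.fst.comp (Primrec.fst.comp Primrec.fst)
    exact (Primrec.eq.comp (Primrec.list_getElem?.comp hl (Primrec.snd.comp Primrec.fst))
      (Primrec.list_getElem?.comp hl Primrec.snd)).not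

theorem InTree.of_append {σ τ : List Bool} (h : InTree (σ ++ τ)) : InTree σ := by
  intro e he hb hx
  have hle : σ.length ≤ (σ ++ τ).length := by simp
  have hd := dlist_mono hle hb
  obtain ⟨x, hx', y, hy', hxy⟩ := h e (by omega) (by rwa [hd])
    (by rw [hd]; exact fun x hx' => lt_of_lt_of_le (hx x hx') hle)
  rw [hd] at hx' hy'
  refine ⟨x, hx', y, hy', ?_⟩
  rwa [List.getElem?_append_left (hx x hx'), List.getElem?_append_left (hx y hy')] at hxy

theorem exists_split (D : ℕ → List ℕ) (n : ℕ) : ∃ P N : Finset ℕ, Disjoint P N ∧ P.card ≤ n ∧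
    N.card ≤ n ∧ ∀ e < n, Big e (D e) → ∃ x ∈ D e, ∃ y ∈ D e, x ∈ P ∧ y ∈ N := by
  induction n with
  | zero => exact ⟨∅, ∅, by simp, by simp, by simp, by simp⟩
  | succ n ih =>
    obtain ⟨P, N, hd, hP, hN, h⟩ := ih
    by_cases hb : Big n (D n)
    · have h1 : (D n).toFinset.card = (D n).length := List.toFinset_card_of_nodup hb.nodup
      have h2 : 1 < ((D n).toFinset \ (P ∪ N)).card := by
        have := Finset.le_card_sdiff (P ∪ N) (D n).toFinset
        have := Finset.card_union_le P N
        have := hb.1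
        omega
      obtain ⟨x, hx, y, hy, hxy⟩ := Finset.one_lt_card.1 h2
      simp only [Finset.mem_sdiff, List.mem_toFinset, Finset.mem_union, not_or] at hx hy
      refine ⟨insert x P, insert y N, ?_, ?_, ?_, fun e he hbe => ?_⟩
      · simp [Finset.disjoint_insert_left, Finset.disjoint_insert_right, hd, hxy, hx.2.2, hy.2.1,
          Ne.symm hxy]
      · exact (Finset.card_insert_le _ _).trans (by omega)
      · exact (Finset.card_insert_le _ _).trans (by omega)
      · rcases Nat.lt_succ_iff_lt_or_eq.1 he with he | rfl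
        · obtain ⟨a, ha, b, hb, h1, h2⟩ := h e he hbe
          exact ⟨a, ha, b, hb, Finset.mem_insert_of_mem h1, Finset.mem_insert_of_mem h2⟩
        · exact ⟨x, hx.1, y, hy.1, Finset.mem_insert_self _ _, Finset.mem_insert_self _ _⟩
    · refine ⟨P, N, hd, by omega, by omega, fun e he hbe => ?_⟩
      rcases Nat.lt_succ_iff_lt_or_eq.1 he with he | rfl
      · exact h e he hbe
      · exact absurd hbe hb

theorem exists_inTree (n : ℕ) : ∃ σ, InTree σ ∧ σ.length = n := by
  obtain ⟨P, N, hd, -, -, h⟩ := exists_split (dlist n) n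
  refine ⟨(List.range n).map fun i => decide (i ∈ P), ?_, by simp⟩
  intro e he hb hx
  simp only [List.length_map, List.length_range] at he hb hx ⊢
  obtain ⟨x, hx', y, hy', h1, h2⟩ := h e he hb
  refine ⟨x, hx', y, hy', ?_⟩
  have h3 : y ∉ P := fun h => Finset.disjoint_left.1 hd h h2
  simp [hx x hx', hx y hy', h1, h3]

theorem ideal_not_rwkl (hgood : ∀ s, Good (Zs s)) : ¬ RWKL (Ideal Zs) := by
  intro h
  let T : Set ℕ := {n | ∃ σ : List Bool, Encodable.encode σ = n ∧ InTree σ}
  have hT : ∀ σ : List Bool, Encodable.encode σ ∈ T ↔ InTree σ := fun σ => by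
    simp [T]
  have hTI : T ∈ Ideal Zs := by
    refine ⟨0, Dec.of_prim ?_⟩
    refine (pr_exists_mem (α := ℕ) (R := fun n (σ : List Bool) =>
      Encodable.encode σ = n ∧ InTree σ) (PrimrecPred.and (Primrec.eq.comp
        (Primrec.encode.comp Primrec.snd) Primrec.fst) (primrec_inTree.comp Primrec.snd))
      (Primrec.optionToList.comp Primrec.decode)).of_eq fun n => ?_
    constructor
    · rintro ⟨σ, -, h⟩
      exact ⟨σ, h⟩
    · rintro ⟨σ, rfl, h⟩
      exact ⟨σ, by simp, rfl, h⟩
  have hinf : T.Infinite := by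
    choose g hg1 hg2 using exists_inTree
    refine Set.infinite_of_injective_forall_mem (f := fun n => Encodable.encode (g n))
      (fun a b hab => ?_) fun n => (hT _).2 (hg1 n)
    have := Encodable.encode_injective hab
    rw [← hg2 a, ← hg2 b, this]
  obtain ⟨H, ⟨s, hs⟩, hHi, c, hc⟩ := h T hTI (fun n ⟨σ, h, _⟩ => ⟨σ, h⟩)
    (fun σ τ h => (hT _).2 ((hT _).1 h).of_append) hinf
  have hre : RE (Zs s) fun p : ℕ × ℕ => Big p.1 (Denumerable.ofNat (List ℕ) p.2) ∧
      ∀ x ∈ Denumerable.ofNat (List ℕ) p.2, x ∈ H := by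
    have hl : Primrec fun p : ℕ × ℕ => Denumerable.ofNat (List ℕ) p.2 :=
      (Primrec.ofNat _).comp Primrec.snd
    exact (RE.of_prim (primrec_big.comp Primrec.fst hl)).and
      (RE.forall_mem (P := fun (_ : ℕ × ℕ) (x : ℕ) => x ∈ H) (hs.1.comp Primrec.snd) hl)
  obtain ⟨e, v, ⟨hb, hH⟩, hv⟩ := (hgood s).rel (S := fun e v =>
    Big e (Denumerable.ofNat (List ℕ) v) ∧ ∀ x ∈ Denumerable.ofNat (List ℕ) v, x ∈ H) hre
    fun e => by
      obtain ⟨F, hF, hcard⟩ := hHi.exists_subset_card_eq (2 * e + 2)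
      refine ⟨Encodable.encode F.toList, ?_⟩
      rw [Denumerable.ofNat_encode]
      refine ⟨⟨by simp [hcard], fun i hi j hj hij => ?_⟩, fun x hx => hF (by simpa using hx)⟩
      have := List.nodup_iff_getElem?_ne_getElem?.1 F.nodup_toList
      rcases lt_trichotomy i j with h | h | h
      · exact absurd hij (this i j h hj)
      · exact h
      · exact absurd hij.symm (this j i h hi)
  obtain ⟨k, hk⟩ := (mem_diag_iff e v).1 hv
  obtain ⟨b, hb'⟩ := exists_bound (Denumerable.ofNat (List ℕ) v)
  obtain ⟨σ, h1, h2, h3⟩ := hc (max (max k b) (e + 1))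
  have hd : dlist σ.length e = Denumerable.ofNat (List ℕ) v := by
    have : Code.evaln σ.length (Denumerable.ofNat Code e) e = some v :=
      Code.evaln_mono (by omega) hk
    simp [dlist, this]
  obtain ⟨x, hx, y, hy, hxy⟩ := (hT σ).1 h1 e (by omega) (by rwa [hd])
    (by rw [hd]; intro x hx; have := hb' x hx; omega)
  rw [hd] at hx hy
  apply hxy
  rw [h3 x (hH x hx) (by have := hb' x hx; omega), h3 y (hH y hy) (by have := hb' y hy; omega)]

theorem main : ∃ I : Set (Set ℕ), IsModelRCA0 I ∧ RCOLOR2 I ∧ ¬ DNR I ∧ ¬ RWKL I := by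
  obtain ⟨Zs, h1, h2, h3⟩ := exists_chain
  exact ⟨Ideal Zs, ideal_model h2, ideal_rcolor2 h2 h3, ideal_not_dnr h1, ideal_not_rwkl h1⟩

end Pool.Agent.P.MP_c78104_lc
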