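import Pool.Agent.P.MP_c78104_lc.RE2

/-!
The forcing: an infinite set with no oddly connected pair that computes no DNR function.
-/

set_option autoImplicit false

namespace Pool.Agent.P.MP_c78104_lc

/-- effectively open sets, given on finite lists with a use bound -/
structure Opn (Z : Set ℕ) (B : List ℕ → ℕ → Prop) : Prop where
  re : RE Z fun p : List ℕ × ℕ => B p.1 p.2
  ext : ∀ τ k A, B τ k → (∀ x ∈ A, k ≤ x) → B (τ ++ A) k
  mono : ∀ τ k k', B τ k → k ≤ k' → B τ k'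

theorem Opn.top (Z : Set ℕ) : Opn Z fun _ _ => True :=
  ⟨RE.of_prim (Primrec.eq.comp (Primrec.const 0) (Primrec.const 0) |>.of_eq (by simp)),
    fun _ _ _ _ _ => trivial, fun _ _ _ _ _ => trivial⟩

theorem Opn.bot (Z : Set ℕ) : Opn Z fun _ _ => False :=
  ⟨RE.of_prim (Primrec.eq.comp (Primrec.const 0) (Primrec.const 1) |>.of_eq (by simp)),
    fun _ _ _ h _ => h, fun _ _ _ h _ => h⟩

theorem Opn.and {Z : Set ℕ} {B C : List ℕ → ℕ → Prop} (hB : Opn Z B) (hC : Opn Z C) :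
    Opn Z fun τ k => B τ k ∧ C τ k :=
  ⟨hB.re.and hC.re, fun τ k A h hA => ⟨hB.ext τ k A h.1 hA, hC.ext τ k A h.2 hA⟩,
    fun τ k k' h hk => ⟨hB.mono τ k k' h.1 hk, hC.mono τ k k' h.2 hk⟩⟩

theorem Opn.or {Z : Set ℕ} {B C : List ℕ → ℕ → Prop} (hB : Opn Z B) (hC : Opn Z C) :
    Opn Z fun τ k => B τ k ∨ C τ k :=
  ⟨hB.re.or hC.re, fun τ k A h hA => h.imp (fun h => hB.ext τ k A h hA) fun h => hC.ext τ k A h hA,
    fun τ k k' h hk => h.imp (fun h => hB.mono τ k k' h hk) fun h => hC.mono τ k k' h hk⟩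

theorem Opn.shift {Z : Set ℕ} {B : List ℕ → ℕ → Prop} (hB : Opn Z B) (σ : List ℕ) :
    Opn Z fun τ k => B (σ ++ τ) k :=
  ⟨hB.re.comp (g := fun p : List ℕ × ℕ => (σ ++ p.1, p.2))
      ((Primrec.list_append.comp (Primrec.const σ) Primrec.fst).pair Primrec.snd),
    fun τ k A h hA => by rw [← List.append_assoc]; exact hB.ext _ k A h hA,
    fun τ k k' h hk => hB.mono _ k k' h hk⟩

/-- the standing hypotheses -/
structure Setup (Z X : Set ℕ) (Ev Od : ℕ → ℕ → Prop) : Prop where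
  good : Good Z
  reX : RE Z fun n : ℕ => n ∈ X
  reEv : RE Z fun p : ℕ × ℕ => Ev p.1 p.2
  reOd : RE Z fun p : ℕ × ℕ => Od p.1 p.2
  infX : X.Infinite
  ev_refl : ∀ x, Ev x x
  ev_symm : ∀ x y, Ev x y → Ev y x
  ev_trans : ∀ x y z, Ev x y → Ev y z → Ev x z
  od_symm : ∀ x y, Od x y → Od y x
  od_od : ∀ x y z, Od x y → Od y z → Ev x z
  cons : ∀ x y, Ev x y → ¬ Od x y

/-- no r.e. solution -/
def NoSol (Z X : Set ℕ) (Od : ℕ → ℕ → Prop) : Prop :=
  ∀ W ⊆ X, (RE Z fun n : ℕ => n ∈ W) → W.Infinite → ∃ x ∈ W, ∃ y ∈ W, Od x y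

/-- blocks: nonempty finite sets forced to be on one side -/
def Blk (X : Set ℕ) (Ev : ℕ → ℕ → Prop) (A : List ℕ) : Prop :=
  A ≠ [] ∧ (∀ x ∈ A, x ∈ X) ∧ ∀ x ∈ A, ∀ y ∈ A, Ev x y

/-- `P` contains blocks arbitrarily far out -/
def Win (X : Set ℕ) (Ev : ℕ → ℕ → Prop) (P : List ℕ → ℕ → Prop) : Prop :=
  ∀ m, ∃ A, Blk X Ev A ∧ (∀ x ∈ A, m ≤ x) ∧ ∃ k, P A k

/-- forcing conditions -/
structure Cond where
  σ : List ℕ
  B : List ℕ → ℕ → Prop
  P : List ℕ → ℕ → Prop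
  m : ℕ

/-- validity of a condition -/
structure Valid (Z X : Set ℕ) (Ev Od : ℕ → ℕ → Prop) (c : Cond) : Prop where
  mem : ∀ x ∈ c.σ, x ∈ X ∧ x < c.m
  hom : ∀ x ∈ c.σ, ∀ y ∈ c.σ, ¬ Od x y
  far : ∀ x ∈ X, c.m ≤ x → ∀ s ∈ c.σ, ¬ Od x s
  opnB : Opn Z c.B
  opnP : Opn Z c.P
  win : Win X Ev c.P
  nwin : ¬ Win X Ev fun τ k => c.P τ k ∧ c.B (c.σ ++ τ) k

/-- extension of conditions -/
structure Ext (d c : Cond) : Prop where
  stem : ∃ A, d.σ = c.σ ++ A ∧ ∀ x ∈ A, c.m ≤ x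
  sub : ∀ τ k, c.B τ k → d.B τ k
  le : c.m ≤ d.m

variable {Z X : Set ℕ} {Ev Od : ℕ → ℕ → Prop}

theorem Setup.re_blk (S : Setup Z X Ev Od) : RE Z (Blk X Ev) := by
  refine RE.and (RE.of_prim ?_) (RE.and ?_ ?_)
  · exact (Primrec.eq.comp Primrec.id (Primrec.const [])).not
  · exact RE.forall_mem (P := fun (_ : List ℕ) (x : ℕ) => x ∈ X) (S.reX.comp Primrec.snd) Primrec.id
  · refine RE.forall_mem (P := fun (A : List ℕ) (x : ℕ) => ∀ y ∈ A, Ev x y) ?_ Primrec.id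
    refine RE.forall_mem (P := fun (p : List ℕ × ℕ) (y : ℕ) => Ev p.2 y) ?_ Primrec.fst
    exact S.reEv.comp ((Primrec.snd.comp Primrec.fst).pair Primrec.snd)

theorem Setup.od_finite (S : Setup Z X Ev Od) (N : NoSol Z X Od) (s : ℕ) :
    {x | x ∈ X ∧ Od x s}.Finite := by
  by_contra h
  obtain ⟨x, hx, y, hy, hxy⟩ := N {x | x ∈ X ∧ Od x s} (fun x hx => hx.1)
    (S.reX.and (S.reOd.comp (Primrec.id.pair (Primrec.const s)))) h
  exact S.cons x y (S.od_od x s y hx.2 (S.od_symm _ _ hy.2)) hxy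

theorem Setup.far_bound (S : Setup Z X Ev Od) (N : NoSol Z X Od) (σ : List ℕ) :
    ∃ m, (∀ x ∈ σ, x < m) ∧ ∀ x ∈ X, m ≤ x → ∀ s ∈ σ, ¬ Od x s := by
  induction σ with
  | nil => exact ⟨0, by simp, by simp⟩
  | cons s σ ih =>
    obtain ⟨m, hm1, hm2⟩ := ih
    obtain ⟨b, hb⟩ := (S.od_finite N s).bddAbove
    refine ⟨max (max m (b + 1)) (s + 1), fun x hx => ?_, fun x hx hmx t ht => ?_⟩
    · rcases List.mem_cons.1 hx with rfl | hx
      · omega
      · have := hm1 x hx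
        omega
    · rcases List.mem_cons.1 ht with rfl | ht
      · intro h
        have := hb (show x ∈ {x | x ∈ X ∧ Od x t} from ⟨hx, h⟩)
        omega
      · exact hm2 x hx (by omega) t ht

/-- an r.e. increasing sequence in `X` has an evenly connected pair -/
theorem Setup.even_pair (S : Setup Z X Ev Od) (N : NoSol Z X Od) {y : ℕ → ℕ}
    (hy : RE Z fun p : ℕ × ℕ => y p.1 = p.2) (hmono : StrictMono y) (hX : ∀ i, y i ∈ X) :
    ∃ i j, i < j ∧ Ev (y i) (y j) := by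
  by_contra hne
  push Not at hne
  by_cases hfin : {a | ∃ b, a < b ∧ Od (y a) (y b)}.Finite
  · obtain ⟨a₀, ha₀⟩ := hfin.bddAbove
    have hre : RE Z fun n : ℕ => n ∈ Set.range fun i => y (i + (a₀ + 1)) := by
      refine RE.exists_nat (P := fun (n i : ℕ) => y (i + (a₀ + 1)) = n) ?_
      exact hy.comp ((Primrec.nat_add.comp Primrec.snd (Primrec.const _)).pair Primrec.fst)
    obtain ⟨_, ⟨i, rfl⟩, _, ⟨j, rfl⟩, hij⟩ := N _ (by rintro _ ⟨i, rfl⟩; exact hX _) hre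
      (Set.infinite_range_of_injective fun i j hij => by
        have := hmono.injective hij
        omega)
    rcases lt_trichotomy i j with h | h | h
    · have := ha₀ (show i + (a₀ + 1) ∈ {a | ∃ b, a < b ∧ Od (y a) (y b)} from
        ⟨j + (a₀ + 1), by omega, hij⟩)
      omega
    · subst h
      exact S.cons _ _ (S.ev_refl _) hij
    · have := ha₀ (show j + (a₀ + 1) ∈ {a | ∃ b, a < b ∧ Od (y a) (y b)} from
        ⟨i + (a₀ + 1), by omega, S.od_symm _ _ hij⟩)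
      omega
  · have hre : RE Z fun n : ℕ => n ∈ y '' {a | ∃ b, a < b ∧ Od (y a) (y b)} := by
      have h1 : RE Z fun n : ℕ => ∃ a, y a = n ∧ ∃ b, a < b ∧ ∃ z, y b = z ∧ Od n z := by
        refine RE.exists_nat (P := fun (n a : ℕ) =>
          y a = n ∧ ∃ b, a < b ∧ ∃ z, y b = z ∧ Od n z) ?_
        refine RE.and (hy.comp (Primrec.snd.pair Primrec.fst)) ?_
        refine RE.exists_nat (P := fun (p : ℕ × ℕ) (b : ℕ) =>
          p.2 < b ∧ ∃ z, y b = z ∧ Od p.1 z) ?_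
        refine RE.and (RE.of_prim (Primrec.nat_lt.comp (Primrec.snd.comp Primrec.fst)
          Primrec.snd)) ?_
        refine RE.exists_nat (P := fun (q : (ℕ × ℕ) × ℕ) (z : ℕ) => y q.2 = z ∧ Od q.1.1 z) ?_
        exact RE.and (hy.comp ((Primrec.snd.comp Primrec.fst).pair Primrec.snd))
          (S.reOd.comp ((Primrec.fst.comp (Primrec.fst.comp Primrec.fst)).pair Primrec.snd))
      refine h1.of_eq fun n => ?_
      constructor
      · rintro ⟨a, rfl, b, hab, z, rfl, h⟩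
        exact ⟨a, ⟨b, hab, h⟩, rfl⟩
      · rintro ⟨a, ⟨b, hab, h⟩, rfl⟩
        exact ⟨a, rfl, b, hab, _, rfl, h⟩
    obtain ⟨_, ⟨a, ⟨b, hab, hb⟩, rfl⟩, _, ⟨a', ⟨b', hab', hb'⟩, rfl⟩, hij⟩ :=
      N _ (by rintro _ ⟨i, -, rfl⟩; exact hX _) hre
        (Set.Infinite.image hmono.injective.injOn hfin)
    rcases lt_trichotomy a a' with h | h | h
    · exact hne a b' (h.trans hab') (S.od_od _ _ _ hij hb')
    · subst h
      exact S.cons _ _ (S.ev_refl _) hij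
    · exact hne a' b (h.trans hab) (S.od_od _ _ _ (S.od_symm _ _ hij) hb)

theorem exists_bound (A : List ℕ) : ∃ b, ∀ x ∈ A, x < b := by
  induction A with
  | nil => exact ⟨0, by simp⟩
  | cons a A ih =>
    obtain ⟨b, hb⟩ := ih
    refine ⟨max b (a + 1), fun x hx => ?_⟩
    rcases List.mem_cons.1 hx with rfl | hx
    · omega
    · have := hb x hx
      omega

/-- The step lemma. -/
theorem Setup.step (S : Setup Z X Ev Od) (N : NoSol Z X Od) {c : Cond} (hc : Valid Z X Ev Od c)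
    {C : ℕ → List ℕ → ℕ → Prop} (hC : ∀ n, Opn Z (C n)) {D : List ℕ → ℕ → Prop} (hD : Opn Z D)
    (star : ∀ Q : List ℕ → Prop, RE Z Q → (∀ n, ∃ A, Q A ∧ ∃ k, C n (c.σ ++ A) k) →
      ∃ A, Q A ∧ ∃ k, D (c.σ ++ A) k) :
    ∃ d : Cond, Valid Z X Ev Od d ∧ Ext d c ∧ ((∃ n, ∀ τ k, C n τ k → d.B τ k) ∨
      ((∃ x ∈ d.σ, c.m ≤ x) ∧ D d.σ d.m)) := by
  by_contra hno
  -- (a)
  have ha : ∀ n P', Opn Z P' → Win X Ev P' →
      Win X Ev fun τ k => P' τ k ∧ (c.B (c.σ ++ τ) k ∨ C n (c.σ ++ τ) k) := by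
    intro n P' hP' hw
    by_contra hnw
    refine hno ⟨⟨c.σ, fun τ k => c.B τ k ∨ C n τ k, P', c.m⟩,
      ⟨hc.mem, hc.hom, hc.far, hc.opnB.or (hC n), hP', hw, hnw⟩,
      ⟨⟨[], by simp, by simp⟩, fun τ k h => Or.inl h, le_rfl⟩, Or.inl ⟨n, fun τ k h => Or.inr h⟩⟩
  -- (b)
  have hb : ∀ A, Blk X Ev A → (∀ x ∈ A, c.m ≤ x) → (∃ k, D (c.σ ++ A) k) →
      ∀ P', Opn Z P' → Win X Ev P' →
      Win X Ev fun τ k => P' τ k ∧ c.B (c.σ ++ A ++ τ) k := by
    rintro A hA hAm ⟨k, hk⟩ P' hP' hw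
    by_contra hnw
    obtain ⟨m, hm1, hm2⟩ := S.far_bound N (c.σ ++ A)
    refine hno ⟨⟨c.σ ++ A, c.B, P', max (max m k) c.m⟩,
      ⟨fun x hx => ⟨?_, ?_⟩, fun x hx y hy => ?_, fun x hx hmx s hs => ?_, hc.opnB, hP', hw, hnw⟩,
      ⟨⟨A, rfl, hAm⟩, fun τ k h => h, le_max_right _ _⟩, Or.inr ⟨?_, ?_⟩⟩
    · rcases List.mem_append.1 hx with hx | hx
      · exact (hc.mem x hx).1
      · exact hA.2.1 x hx
    · have := hm1 x hx
      simp only
      omega
    · rcases List.mem_append.1 hx with hx | hx <;> rcases List.mem_append.1 hy with hy | hy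
      · exact hc.hom x hx y hy
      · exact fun h => hc.far y (hA.2.1 y hy) (hAm y hy) x hx (S.od_symm _ _ h)
      · exact hc.far x (hA.2.1 x hx) (hAm x hx) y hy
      · exact S.cons _ _ (hA.2.2 x hx y hy)
    · simp only at hmx
      exact hm2 x hx (by omega) s hs
    · obtain ⟨x, hx⟩ := List.exists_mem_of_ne_nil A hA.1
      exact ⟨x, List.mem_append_right _ hx, hAm x hx⟩
    · exact hD.mono _ _ _ hk (by simp)
  -- the bound for non-winnability
  obtain ⟨m₀, hm₀⟩ : ∃ m₀, ∀ A, Blk X Ev A → (∀ x ∈ A, m₀ ≤ x) →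
      ∀ k, ¬ (c.P A k ∧ c.B (c.σ ++ A) k) := by
    have := hc.nwin
    unfold Win at this
    push Not at this
    obtain ⟨m₀, h⟩ := this
    exact ⟨m₀, fun A hA hm k hk => h A hA hm k hk.1 hk.2⟩
  -- intersections over a list of earlier blocks
  have hQ : ∀ L : List (List ℕ),
      (∀ A ∈ L, Blk X Ev A ∧ (∀ x ∈ A, c.m ≤ x) ∧ ∃ k, D (c.σ ++ A) k) →
      (Opn Z fun τ k => c.P τ k ∧ ∀ A ∈ L, c.B (c.σ ++ A ++ τ) k) ∧
      Win X Ev fun τ k => c.P τ k ∧ ∀ A ∈ L, c.B (c.σ ++ A ++ τ) k := by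
    intro L hL
    induction L with
    | nil => simpa using ⟨hc.opnP, hc.win⟩
    | cons A L ih =>
      obtain ⟨ih1, ih2⟩ := ih fun A' hA' => hL A' (List.mem_cons_of_mem _ hA')
      obtain ⟨h1, h2, h3⟩ := hL A List.mem_cons_self
      have e : (fun τ k => c.P τ k ∧ ∀ A' ∈ A :: L, c.B (c.σ ++ A' ++ τ) k) = fun τ k =>
          (c.P τ k ∧ ∀ A ∈ L, c.B (c.σ ++ A ++ τ) k) ∧ c.B (c.σ ++ A ++ τ) k := by
        funext τ k
        simp only [List.forall_mem_cons, eq_iff_iff]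
        tauto
      rw [e]
      exact ⟨ih1.and (hc.opnB.shift _), hb A h1 h2 h3 _ ih1 ih2⟩
  -- the recursion
  let Q : List (List ℕ) × ℕ → List ℕ → Prop := fun s A =>
    Blk X Ev A ∧ (∀ x ∈ A, s.2 ≤ x) ∧ ∃ k, c.P A k ∧ ∀ A' ∈ s.1, c.B (c.σ ++ A' ++ A) k
  have hQre : RE Z fun u : (List (List ℕ) × ℕ) × List ℕ => Q u.1 u.2 := by
    refine RE.and (S.re_blk.comp Primrec.snd) (RE.and (RE.of_prim ?_) ?_)
    · exact pr_forall_mem (α := (List (List ℕ) × ℕ) × List ℕ) (R := fun u (x : ℕ) => u.1.2 ≤ x)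
        (Primrec.nat_le.comp (Primrec.snd.comp (Primrec.fst.comp Primrec.fst)) Primrec.snd)
        Primrec.snd
    · refine RE.exists_nat (P := fun (u : (List (List ℕ) × ℕ) × List ℕ) (k : ℕ) =>
        c.P u.2 k ∧ ∀ A' ∈ u.1.1, c.B (c.σ ++ A' ++ u.2) k) ?_
      refine RE.and (hc.opnP.re.comp ((Primrec.snd.comp Primrec.fst).pair Primrec.snd)) ?_
      refine RE.forall_mem (P := fun (w : ((List (List ℕ) × ℕ) × List ℕ) × ℕ) (A' : List ℕ) =>
        c.B (c.σ ++ A' ++ w.1.2) w.2) ?_ (Primrec.fst.comp (Primrec.fst.comp Primrec.fst))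
      exact hc.opnB.re.comp ((Primrec.list_append.comp (Primrec.list_append.comp
        (Primrec.const c.σ) Primrec.snd) (Primrec.snd.comp (Primrec.fst.comp Primrec.fst))).pair
        (Primrec.snd.comp Primrec.fst))
  let R : List (List ℕ) × ℕ → List (List ℕ) × ℕ → Prop := fun s t =>
    ∃ A, t.1 = A :: s.1 ∧ Q s A ∧ (∃ k, D (c.σ ++ A) k) ∧ c.P A t.2 ∧ ∀ x ∈ A, x < t.2
  have hRre : RE Z fun u : (List (List ℕ) × ℕ) × (List (List ℕ) × ℕ) => R u.1 u.2 := by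
    refine RE.ex (P := fun (u : (List (List ℕ) × ℕ) × (List (List ℕ) × ℕ)) (A : List ℕ) =>
      u.2.1 = A :: u.1.1 ∧ Q u.1 A ∧ (∃ k, D (c.σ ++ A) k) ∧ c.P A u.2.2 ∧ ∀ x ∈ A, x < u.2.2) ?_
    have h22 : Primrec fun w : ((List (List ℕ) × ℕ) × (List (List ℕ) × ℕ)) × List ℕ => w.1.2.2 :=
      Primrec.snd.comp (Primrec.snd.comp Primrec.fst)
    refine RE.and (RE.of_prim ?_) (RE.and ?_ (RE.and ?_ (RE.and ?_ (RE.of_prim ?_))))
    · exact Primrec.eq.comp (Primrec.fst.comp (Primrec.snd.comp Primrec.fst))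
        (Primrec.list_cons.comp Primrec.snd (Primrec.fst.comp (Primrec.fst.comp Primrec.fst)))
    · exact hQre.comp ((Primrec.fst.comp Primrec.fst).pair Primrec.snd)
    · exact (RE.exists_nat (P := fun (A : List ℕ) (k : ℕ) => D (c.σ ++ A) k)
        (hD.shift c.σ).re).comp Primrec.snd
    · exact hc.opnP.re.comp (Primrec.snd.pair h22)
    · exact pr_forall_mem (α := ((List (List ℕ) × ℕ) × (List (List ℕ) × ℕ)) × List ℕ)
        (R := fun w (x : ℕ) => x < w.1.2.2)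
        (Primrec.nat_lt.comp Primrec.snd (h22.comp Primrec.fst)) Primrec.snd
  let Inv : List (List ℕ) × ℕ → Prop := fun s =>
    (∀ A ∈ s.1, Blk X Ev A ∧ (∀ x ∈ A, c.m ≤ x) ∧ ∃ k, D (c.σ ++ A) k) ∧ max c.m m₀ ≤ s.2
  have hex : ∀ s, Inv s → ∃ t, R s t := by
    rintro ⟨L, k⟩ ⟨hL, hk⟩
    simp only at hL hk
    obtain ⟨hq1, hq2⟩ := hQ L hL
    have : ∃ A, Q (L, k) A ∧ ∃ k, D (c.σ ++ A) k := by
      refine star _ (hQre.comp ((Primrec.const (L, k)).pair Primrec.id)) fun n => ?_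
      obtain ⟨A, hA, hAk, j, hj1, hj2⟩ := ha n _ hq1 hq2 k
      refine ⟨A, ⟨hA, hAk, j, hj1⟩, j, ?_⟩
      rcases hj2 with h | h
      · exact absurd ⟨hj1.1, h⟩ (hm₀ A hA (fun x hx => by have := hAk x hx; omega) j)
      · exact h
    obtain ⟨A, hA, hAD⟩ := this
    obtain ⟨j, hj, -⟩ := hA.2.2
    obtain ⟨b, hb⟩ := exists_bound A
    exact ⟨(A :: L, max j b), A, rfl, hA, hAD, hc.opnP.mono _ _ _ hj (le_max_left _ _),
      fun x hx => lt_of_lt_of_le (hb x hx) (le_max_right _ _)⟩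
  have hlt : ∀ s t, R s t → s.2 < t.2 := by
    rintro s t ⟨A, -, hq, -, -, hx⟩
    obtain ⟨x, hx'⟩ := List.exists_mem_of_ne_nil A hq.1.1
    exact lt_of_le_of_lt (hq.2.1 x hx') (hx x hx')
  have hinv : ∀ s t, Inv s → R s t → Inv t := by
    intro s t hs hst
    refine ⟨?_, hs.2.trans (hlt s t hst).le⟩
    obtain ⟨A, h1, hq, hd, -, -⟩ := hst
    rw [h1]
    intro A' hA'
    rcases List.mem_cons.1 hA' with rfl | hA'
    · exact ⟨hq.1, fun x hx => by have := hq.2.1 x hx; have := hs.2; omega, hd⟩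
    · exact hs.1 A' hA'
  obtain ⟨f, -, hfI, hfR, hfre⟩ := RE.dc hRre Inv ([], max c.m m₀) ⟨by simp, le_rfl⟩ hex hinv
  choose A hA1 hA2 hA3 hA4 hA5 using hfR
  have hkmono : StrictMono fun i => (f i).2 :=
    strictMono_nat_of_lt_succ fun i => hlt _ _ ⟨A i, hA1 i, hA2 i, hA3 i, hA4 i, hA5 i⟩
  have hmemL : ∀ i j, i < j → A i ∈ (f j).1 := by
    intro i j hij
    induction j with
    | zero => omega
    | succ j ih =>
      rw [hA1]
      rcases Nat.lt_succ_iff_lt_or_eq.1 hij with h | h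
      · exact List.mem_cons_of_mem _ (ih h)
      · subst h
        exact List.mem_cons_self
  let y : ℕ → ℕ := fun i => (A i).headI
  have hyA : ∀ i, y i ∈ A i := fun i => by
    have := (hA2 i).1.1
    simp only [y]
    cases h : A i with
    | nil => exact absurd h this
    | cons a l => simp
  have hyre : RE Z fun p : ℕ × ℕ => y p.1 = p.2 := by
    have h1 : RE Z fun p : ℕ × ℕ => ∃ s : List (List ℕ) × ℕ,
        f (p.1 + 1) = s ∧ s.1.headI.headI = p.2 := by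
      refine RE.ex (P := fun (p : ℕ × ℕ) (s : List (List ℕ) × ℕ) =>
        f (p.1 + 1) = s ∧ s.1.headI.headI = p.2) ?_
      refine RE.and (hfre.comp ((Primrec.succ.comp (Primrec.fst.comp Primrec.fst)).pair
        Primrec.snd)) (RE.of_prim ?_)
      exact Primrec.eq.comp (Primrec.list_headI.comp (Primrec.list_headI.comp
        (Primrec.fst.comp Primrec.snd))) (Primrec.snd.comp Primrec.fst)
    refine h1.of_eq fun p => ?_
    simp [hA1, y]
  have hymono : StrictMono y := strictMono_nat_of_lt_succ fun i =>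
    lt_of_lt_of_le (hA5 i _ (hyA i)) ((hA2 (i + 1)).2.1 _ (hyA (i + 1)))
  obtain ⟨i, j, hij, hev⟩ := S.even_pair N hyre hymono fun i => (hA2 i).1.2.1 _ (hyA i)
  have hblk : Blk X Ev (A i ++ A j) := by
    have bi := (hA2 i).1
    have bj := (hA2 j).1
    refine ⟨by simp [bi.1], fun x hx => ?_, fun x hx z hz => ?_⟩
    · rcases List.mem_append.1 hx with hx | hx
      · exact bi.2.1 x hx
      · exact bj.2.1 x hx
    · rcases List.mem_append.1 hx with hx | hx <;> rcases List.mem_append.1 hz with hz | hz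
      · exact bi.2.2 x hx z hz
      · exact S.ev_trans _ _ _ (bi.2.2 x hx _ (hyA i))
          (S.ev_trans _ _ _ hev (bj.2.2 _ (hyA j) z hz))
      · exact S.ev_trans _ _ _ (bj.2.2 x hx _ (hyA j))
          (S.ev_trans _ _ _ (S.ev_symm _ _ hev) (bi.2.2 _ (hyA i) z hz))
      · exact bj.2.2 x hx z hz
  obtain ⟨k, -, hk⟩ := (hA2 j).2.2
  have hB := hk _ (hmemL i j hij)
  have hP : c.P (A i ++ A j) (f (i + 1)).2 := hc.opnP.ext _ _ _ (hA4 i) fun x hx =>
    (hkmono.monotone (show i + 1 ≤ j from hij)).trans ((hA2 j).2.1 x hx)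
  refine hm₀ _ hblk (fun x hx => ?_) (max k (f (i + 1)).2)
    ⟨hc.opnP.mono _ _ _ hP (le_max_right _ _), ?_⟩
  · rcases List.mem_append.1 hx with hx | hx
    · have := (hA2 i).2.1 x hx
      have := (hfI i).2
      omega
    · have := (hA2 j).2.1 x hx
      have := (hfI j).2
      omega
  · rw [← List.append_assoc]
    exact hc.opnB.mono _ _ _ hB (le_max_left _ _)

end Pool.Agent.P.MP_c78104_lc
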