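import Pool.Agent.P.MP_c78104_lc.Forcing

/-!
The generic set.
-/

set_option autoImplicit false

namespace Pool.Agent.P.MP_c78104_lc

variable {Z X : Set ℕ} {Ev Od : ℕ → ℕ → Prop}

theorem Ext.trans {c d e : Cond} (h1 : Ext e d) (h2 : Ext d c) : Ext e c := by
  obtain ⟨A, hA, hA'⟩ := h1.stem
  obtain ⟨B, hB, hB'⟩ := h2.stem
  refine ⟨⟨B ++ A, by rw [hA, hB, List.append_assoc], fun x hx => ?_⟩,
    fun τ k h => h1.sub _ _ (h2.sub _ _ h), h2.le.trans h1.le⟩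
  rcases List.mem_append.1 hx with hx | hx
  · exact hB' x hx
  · exact h2.le.trans (hA' x hx)

theorem Ext.refl (c : Cond) : Ext c c := ⟨⟨[], by simp, by simp⟩, fun _ _ h => h, le_rfl⟩

theorem Valid.not_B {c : Cond} (hc : Valid Z X Ev Od c) (k : ℕ) : ¬ c.B c.σ k := by
  intro h
  apply hc.nwin
  intro m
  obtain ⟨A, hA, hm, j, hj⟩ := hc.win (max m k)
  refine ⟨A, hA, fun x hx => (le_max_left _ _).trans (hm x hx), max j k,
    hc.opnP.mono _ _ _ hj (le_max_left _ _), hc.opnB.mono _ _ _ ?_ (le_max_right _ _)⟩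
  exact hc.opnB.ext _ _ _ h fun x hx => (le_max_right _ _).trans (hm x hx)

/-- segments of the join of `Z` with a finite set -/
noncomputable def jseg (Z : Set ℕ) (τ : List ℕ) (j : ℕ) : List Bool :=
  seg (join Z {x | x ∈ τ}) j

theorem seg_join_congr {A B : Set ℕ} {j : ℕ} (h : ∀ x < j, x ∈ A ↔ x ∈ B) :
    seg (join Z A) j = seg (join Z B) j := by
  apply seg_congr
  intro i hi
  simp only [join, Set.mem_setOf_eq]
  rw [h (i / 2) (by omega)]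

theorem jseg_append (τ A : List ℕ) {j k : ℕ} (hj : j ≤ k) (hA : ∀ x ∈ A, k ≤ x) :
    jseg Z (τ ++ A) j = jseg Z τ j := by
  apply seg_join_congr
  intro x hx
  simp only [List.mem_append, Set.mem_setOf_eq]
  constructor
  · rintro (h | h)
    · exact h
    · have := hA x h
      omega
  · exact Or.inl

theorem re_jseg {β : Type} [Primcodable β] {R : β → List Bool → Prop} (hR : PrimrecRel R) :
    RE Z fun p : (List ℕ × ℕ) × β => R p.2 (jseg Z p.1.1 p.1.2) := by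
  have hm : PrimrecPred fun p : List ℕ × ℕ => p.2 ∈ p.1 := pr_mem.comp Primrec.snd Primrec.fst
  have := join_family (Z := Z) (α := List ℕ) (A := fun _ => Z) (B := fun τ => {x | x ∈ τ})
    (RE.mem_oracle.comp Primrec.snd) (RE.not_mem_oracle.comp Primrec.snd)
    (RE.of_prim hm) (RE.of_prim hm.not)
  exact RE.seg_family (A := fun τ : List ℕ => join Z {x | x ∈ τ}) this.1 this.2 hR

/-- convergence at `n` -/
def Conv (Z : Set ℕ) (R : ℕ × ℕ → List Bool → Prop) (n : ℕ) (τ : List ℕ) (k : ℕ) : Prop :=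
  ∃ v, ∃ j, j ≤ k ∧ R (n, v) (jseg Z τ j)

/-- diagonalization has happened -/
def Diag (Z : Set ℕ) (R : ℕ × ℕ → List Bool → Prop) (τ : List ℕ) (k : ℕ) : Prop :=
  ∃ n v, v ∈ diag n ∧ ∃ j, j ≤ k ∧ R (n, v) (jseg Z τ j)

theorem re_core {R : ℕ × ℕ → List Bool → Prop} (hR : PrimrecRel R) :
    RE Z fun p : (List ℕ × ℕ) × (ℕ × ℕ) => ∃ j, j ≤ p.1.2 ∧ R p.2 (jseg Z p.1.1 j) := by
  refine RE.exists_nat (P := fun (p : (List ℕ × ℕ) × (ℕ × ℕ)) (j : ℕ) =>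
    j ≤ p.1.2 ∧ R p.2 (jseg Z p.1.1 j)) ?_
  refine RE.and (RE.of_prim (Primrec.nat_le.comp Primrec.snd
    (Primrec.snd.comp (Primrec.fst.comp Primrec.fst)))) ?_
  exact (re_jseg hR).comp (g := fun q : ((List ℕ × ℕ) × (ℕ × ℕ)) × ℕ => ((q.1.1.1, q.2), q.1.2))
    (((Primrec.fst.comp (Primrec.fst.comp Primrec.fst)).pair Primrec.snd).pair
      (Primrec.snd.comp Primrec.fst))

theorem opn_conv {R : ℕ × ℕ → List Bool → Prop} (hR : PrimrecRel R) (n : ℕ) :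
    Opn Z (Conv Z R n) := by
  refine ⟨?_, ?_, ?_⟩
  · refine RE.exists_nat (P := fun (p : List ℕ × ℕ) (v : ℕ) =>
      ∃ j, j ≤ p.2 ∧ R (n, v) (jseg Z p.1 j)) ?_
    exact (re_core hR).comp (g := fun q : (List ℕ × ℕ) × ℕ => (q.1, (n, q.2)))
      (Primrec.fst.pair ((Primrec.const n).pair Primrec.snd))
  · rintro τ k A ⟨v, j, hj, h⟩ hA
    exact ⟨v, j, hj, by rwa [jseg_append τ A hj hA]⟩
  · rintro τ k k' ⟨v, j, hj, h⟩ hk
    exact ⟨v, j, hj.trans hk, h⟩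

theorem opn_diag {R : ℕ × ℕ → List Bool → Prop} (hR : PrimrecRel R) : Opn Z (Diag Z R) := by
  refine ⟨?_, ?_, ?_⟩
  · refine RE.exists_nat (P := fun (p : List ℕ × ℕ) (n : ℕ) =>
      ∃ v, v ∈ diag n ∧ ∃ j, j ≤ p.2 ∧ R (n, v) (jseg Z p.1 j)) ?_
    refine RE.exists_nat (P := fun (q : (List ℕ × ℕ) × ℕ) (v : ℕ) =>
      v ∈ diag q.2 ∧ ∃ j, j ≤ q.1.2 ∧ R (q.2, v) (jseg Z q.1.1 j)) ?_
    refine RE.and ((re_diag Z).comp (g := fun u : ((List ℕ × ℕ) × ℕ) × ℕ => (u.1.2, u.2))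
      ((Primrec.snd.comp Primrec.fst).pair Primrec.snd)) ?_
    exact (re_core hR).comp (g := fun u : ((List ℕ × ℕ) × ℕ) × ℕ => (u.1.1, (u.1.2, u.2)))
      ((Primrec.fst.comp Primrec.fst).pair ((Primrec.snd.comp Primrec.fst).pair Primrec.snd))
  · rintro τ k A ⟨n, v, hv, j, hj, h⟩ hA
    exact ⟨n, v, hv, j, hj, by rwa [jseg_append τ A hj hA]⟩
  · rintro τ k k' ⟨n, v, hv, j, hj, h⟩ hk
    exact ⟨n, v, hv, j, hj.trans hk, h⟩

theorem star_diag (hZ : Good Z) {R : ℕ × ℕ → List Bool → Prop} (hR : PrimrecRel R) (σ : List ℕ)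
    (Q : List ℕ → Prop) (hQ : RE Z Q) (h : ∀ n, ∃ A, Q A ∧ ∃ k, Conv Z R n (σ ++ A) k) :
    ∃ A, Q A ∧ ∃ k, Diag Z R (σ ++ A) k := by
  have hS : RE Z fun p : ℕ × ℕ => ∃ A, Q A ∧ ∃ j, R (p.1, p.2) (jseg Z (σ ++ A) j) := by
    refine RE.ex (P := fun (p : ℕ × ℕ) (A : List ℕ) =>
      Q A ∧ ∃ j, R (p.1, p.2) (jseg Z (σ ++ A) j)) ?_
    refine RE.and (hQ.comp Primrec.snd) ?_
    refine RE.exists_nat (P := fun (q : (ℕ × ℕ) × List ℕ) (j : ℕ) =>
      R (q.1.1, q.1.2) (jseg Z (σ ++ q.2) j)) ?_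
    exact (re_jseg hR).comp
      (g := fun u : ((ℕ × ℕ) × List ℕ) × ℕ => ((σ ++ u.1.2, u.2), u.1.1))
      (((Primrec.list_append.comp (Primrec.const σ) (Primrec.snd.comp Primrec.fst)).pair
        Primrec.snd).pair (Primrec.fst.comp Primrec.fst))
  obtain ⟨n, v, ⟨A, hA, j, hj⟩, hv⟩ := hZ.rel
    (S := fun n v => ∃ A, Q A ∧ ∃ j, R (n, v) (jseg Z (σ ++ A) j)) hS fun n => by
      obtain ⟨A, hA, k, v, j, -, hj⟩ := h n
      exact ⟨v, A, hA, j, hj⟩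
  exact ⟨A, hA, j, n, v, hv, j, le_rfl, hj⟩

theorem Setup.step₂ (S : Setup Z X Ev Od) (N : NoSol Z X Od) {c : Cond} (hc : Valid Z X Ev Od c)
    {R : ℕ × ℕ → List Bool → Prop} (hR : PrimrecRel R) :
    ∃ d : Cond, Valid Z X Ev Od d ∧ Ext d c ∧ (∃ x ∈ d.σ, c.m ≤ x) ∧
      ((∃ n, ∀ τ k, Conv Z R n τ k → d.B τ k) ∨ Diag Z R d.σ d.m) := by
  obtain ⟨d, hd, hdc, h⟩ := S.step N hc (C := fun _ _ _ => True) (fun _ => Opn.top Z)
    (D := fun _ _ => True) (Opn.top Z) (fun Q _ h => by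
      obtain ⟨A, hA, -⟩ := h 0
      exact ⟨A, hA, 0, trivial⟩)
  have hx : ∃ x ∈ d.σ, c.m ≤ x := by
    rcases h with ⟨_, h⟩ | h
    · exact absurd (h _ 0 trivial) (hd.not_B 0)
    · exact h.1
  obtain ⟨e, he, hed, h'⟩ := S.step N hd (C := Conv Z R) (opn_conv hR) (opn_diag hR)
    (star_diag S.good hR d.σ)
  refine ⟨e, he, hed.trans hdc, ?_, h'.imp id And.right⟩
  obtain ⟨x, hx, hx'⟩ := hx
  obtain ⟨A, hA, -⟩ := hed.stem
  exact ⟨x, by rw [hA]; exact List.mem_append_left _ hx, hx'⟩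

/-- The main lemma: solutions that compute no DNR function. -/
theorem Setup.exists_solution (S : Setup Z X Ev Od) :
    ∃ H ⊆ X, H.Infinite ∧ (∀ x ∈ H, ∀ y ∈ H, ¬ Od x y) ∧ Good (join Z H) := by
  by_cases N : NoSol Z X Od
  swap
  · unfold NoSol at N
    push Not at N
    obtain ⟨W, hWX, hre, hinf, hno⟩ := N
    obtain ⟨H, hHW, hHi, hHd⟩ := hre.infinite_dec_subset hinf
    exact ⟨H, hHW.trans hWX, hHi, fun x hx y hy => hno x (hHW hx) y (hHW hy),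
      S.good.of_dec ((Dec.refl Z).join hHd)⟩
  obtain ⟨e, he, hsurj⟩ := exists_enum (ℕ × ℕ)
  have h0 : Valid Z X Ev Od ⟨[], fun _ _ => False, fun _ _ => True, 0⟩ := by
    refine ⟨by simp, by simp, by simp, Opn.bot Z, Opn.top Z, fun m => ?_, fun h => ?_⟩
    · obtain ⟨x, hx, hm⟩ := S.infX.exists_gt m
      exact ⟨[x], ⟨by simp, by simpa using hx, by simpa using S.ev_refl x⟩,
        by simpa using hm.le, 0, trivial⟩
    · obtain ⟨A, -, -, k, hk⟩ := h 0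
      exact hk.2
  have hstep : ∀ (t : ℕ) (c : {c : Cond // Valid Z X Ev Od c}),
      ∃ d : {c : Cond // Valid Z X Ev Od c}, Ext d.1 c.1 ∧ (∃ x ∈ d.1.σ, c.1.m ≤ x) ∧
      ((∃ n, ∀ τ k, Conv Z (e t) n τ k → d.1.B τ k) ∨ Diag Z (e t) d.1.σ d.1.m) := by
    intro t c
    obtain ⟨d, hd, h⟩ := S.step₂ N c.2 (he t)
    exact ⟨⟨d, hd⟩, h⟩
  choose nx hnx1 hnx2 hnx3 using hstep
  let c : ℕ → {c : Cond // Valid Z X Ev Od c} := fun t => Nat.rec ⟨_, h0⟩ nx t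
  have hc : ∀ t, c (t + 1) = nx t (c t) := fun t => rfl
  have hext : ∀ s t, s ≤ t → Ext (c t).1 (c s).1 := by
    intro s t hst
    induction t, hst using Nat.le_induction with
    | base => exact Ext.refl _
    | succ t _ ih => rw [hc]; exact (hnx1 t (c t)).trans ih
  have hm : ∀ t, t ≤ (c t).1.m := by
    intro t
    induction t with
    | zero => exact Nat.zero_le _
    | succ t ih =>
      obtain ⟨x, hx, hx'⟩ := hnx2 t (c t)
      have := ((c (t + 1)).2.mem x hx).2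
      omega
  have hsub : ∀ s t, s ≤ t → ∀ x ∈ (c s).1.σ, x ∈ (c t).1.σ := by
    intro s t hst x hx
    obtain ⟨A, hA, -⟩ := (hext s t hst).stem
    rw [hA]
    exact List.mem_append_left _ hx
  let H : Set ℕ := {x | ∃ t, x ∈ (c t).1.σ}
  have hH : ∀ t, ∀ x < (c t).1.m, x ∈ {x | x ∈ (c t).1.σ} ↔ x ∈ H := by
    intro t x hx
    refine ⟨fun h => ⟨t, h⟩, fun ⟨s, hs⟩ => ?_⟩
    rcases le_total s t with h | h
    · exact hsub s t h x hs
    · obtain ⟨A, hA, hA'⟩ := (hext t s h).stem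
      rw [hA] at hs
      rcases List.mem_append.1 hs with hs | hs
      · exact hs
      · have := hA' x hs
        omega
  have hseg : ∀ t j, j ≤ (c t).1.m → jseg Z (c t).1.σ j = seg (join Z H) j :=
    fun t j hj => seg_join_congr fun x hx => hH t x (by omega)
  refine ⟨H, ?_, ?_, ?_, ?_⟩
  · rintro x ⟨t, ht⟩
    exact ((c t).2.mem x ht).1
  · refine Set.infinite_of_forall_exists_gt fun a => ?_
    obtain ⟨x, hx, hx'⟩ := hnx2 (a + 1) (c (a + 1))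
    have := hm (a + 1)
    exact ⟨x, ⟨a + 2, hx⟩, by omega⟩
  · rintro x ⟨s, hs⟩ y ⟨t, ht⟩
    exact (c (max s t)).2.hom x (hsub _ _ (le_max_left _ _) x hs) y
      (hsub _ _ (le_max_right _ _) y ht)
  · rintro f ⟨R, hR, hf⟩
    obtain ⟨t, rfl⟩ := hsurj R hR
    rcases hnx3 t (c t) with ⟨n, hn⟩ | ⟨n, v, hv, j, hj, h⟩
    · exfalso
      obtain ⟨j, hj⟩ := (hf (n, f n)).1 rfl
      have h1 : j ≤ (c (max (t + 1) j)).1.m := (le_max_right _ _).trans (hm _)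
      refine (c (max (t + 1) j)).2.not_B j ((hext _ _ (le_max_left _ _)).sub _ _ (hn _ _ ?_))
      exact ⟨f n, j, le_rfl, by rwa [hseg _ _ h1]⟩
    · refine ⟨n, ?_⟩
      rw [← hc, hseg (t + 1) j hj] at h
      have := (hf (n, v)).2 ⟨j, h⟩
      simp only at this
      rwa [this]

end Pool.Agent.P.MP_c78104_lc
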