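import Pool.Agent.P.MP_c78104_lc.Generic
import Pool.Agent.P.MP_c78104_lc.Defs

/-!
Parity connectedness in the graph of the constraints.
-/

set_option autoImplicit false

namespace Pool.Agent.P.MP_c78104_lc

/-- edges of the constraint graph -/
def Edge (C : Set ℕ) (x y : ℕ) : Prop := Nat.pair x y ∈ C ∨ Nat.pair y x ∈ C

/-- walks with parity -/
inductive Conn (C : Set ℕ) : Bool → ℕ → ℕ → Prop
  | refl (x : ℕ) : Conn C false x x
  | step {p : Bool} {x y z : ℕ} : Conn C p x y → Edge C y z → Conn C (!p) x z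

variable {C : Set ℕ}

theorem Edge.symm {x y : ℕ} (h : Edge C x y) : Edge C y x := Or.symm h

theorem Conn.trans {p q : Bool} {x y z : ℕ} (h1 : Conn C p x y) (h2 : Conn C q y z) :
    Conn C (xor p q) x z := by
  induction h2 with
  | refl => simpa using h1
  | @step q y z w _ he ih =>
    have := (ih h1).step he
    cases p <;> cases q <;> simpa using this

theorem Conn.single {x y : ℕ} (h : Edge C x y) : Conn C true x y := (Conn.refl x).step h

theorem Conn.symm {p : Bool} {x y : ℕ} (h : Conn C p x y) : Conn C p y x := by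
  induction h with
  | refl => exact .refl _
  | @step p x y z _ he ih =>
    have := (Conn.single he.symm).trans ih
    cases p <;> simpa using this

theorem Conn.finite_witness {p : Bool} {x y : ℕ} (h : Conn C p x y) :
    ∃ F : Finset ℕ, ↑F ⊆ C ∧ ∀ ν : Set ℕ, Satisfies ν F → ((x ∈ ν ↔ y ∈ ν) ↔ p = false) := by
  induction h with
  | refl => exact ⟨∅, by simp, by simp⟩
  | @step p x y z _ he ih =>
    obtain ⟨F, hF, h⟩ := ih
    rcases he with he | he
    · refine ⟨insert (Nat.pair y z) F, by simp [Set.insert_subset_iff, he, hF], fun ν hν => ?_⟩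
      have h1 := h ν fun a b hab => hν a b (Finset.mem_insert_of_mem hab)
      have h2 := hν y z (Finset.mem_insert_self _ _)
      cases p <;> simp at h1 ⊢ <;> tauto
    · refine ⟨insert (Nat.pair z y) F, by simp [Set.insert_subset_iff, he, hF], fun ν hν => ?_⟩
      have h1 := h ν fun a b hab => hν a b (Finset.mem_insert_of_mem hab)
      have h2 := hν z y (Finset.mem_insert_self _ _)
      cases p <;> simp at h1 ⊢ <;> tauto

/-- finite satisfiability -/
def FinSat (C : Set ℕ) : Prop := ∀ F : Finset ℕ, ↑F ⊆ C → ∃ ν, Satisfies ν F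

theorem FinSat.cons (h : FinSat C) {x y : ℕ} (h1 : Conn C false x y) : ¬ Conn C true x y := by
  intro h2
  obtain ⟨F, hF, h1⟩ := h1.finite_witness
  obtain ⟨G, hG, h2⟩ := h2.finite_witness
  obtain ⟨ν, hν⟩ := h (F ∪ G) (by simp [hF, hG])
  have a := h1 ν fun a b hab => hν a b (Finset.mem_union_left _ hab)
  have b := h2 ν fun a b hab => hν a b (Finset.mem_union_right _ hab)
  simp at a b
  exact b a

theorem conn_iff (p : Bool) (x y : ℕ) : Conn C p x y ↔ Relation.ReflTransGen
    (fun a b : Bool × ℕ => b.1 = (!a.1) ∧ Edge C a.2 b.2) (false, x) (p, y) := by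
  constructor
  · intro h
    induction h with
    | refl => exact .refl
    | step _ he ih => exact ih.tail ⟨rfl, he⟩
  · intro h
    have : ∀ b : Bool × ℕ, Relation.ReflTransGen
        (fun a b : Bool × ℕ => b.1 = (!a.1) ∧ Edge C a.2 b.2) (false, x) b → Conn C b.1 x b.2 := by
      intro b hb
      induction hb with
      | refl => exact .refl _
      | tail _ he ih => rw [he.1]; exact ih.step he.2
    exact this _ h

theorem re_conn {Z : Set ℕ} (hC : RE Z fun n : ℕ => n ∈ C) (p : Bool) :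
    RE Z fun u : ℕ × ℕ => Conn C p u.1 u.2 := by
  have h1 : RE Z fun u : (Bool × ℕ) × (Bool × ℕ) => u.2.1 = (!u.1.1) ∧ Edge C u.1.2 u.2.2 := by
    have ha : Primrec fun u : (Bool × ℕ) × (Bool × ℕ) => u.1.2 := Primrec.snd.comp Primrec.fst
    have hb : Primrec fun u : (Bool × ℕ) × (Bool × ℕ) => u.2.2 := Primrec.snd.comp Primrec.snd
    refine RE.and (RE.of_prim ?_) (RE.or ?_ ?_)
    · exact Primrec.eq.comp (Primrec.fst.comp Primrec.snd)
        (Primrec.not.comp (Primrec.fst.comp Primrec.fst))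
    · exact hC.comp (Primrec₂.natPair.comp ha hb)
    · exact hC.comp (Primrec₂.natPair.comp hb ha)
  have h2 := (RE.reflTransGen (R := fun a b : Bool × ℕ => b.1 = (!a.1) ∧ Edge C a.2 b.2) h1).comp
    (g := fun u : ℕ × ℕ => ((false, u.1), (p, u.2)))
    (((Primrec.const false).pair Primrec.fst).pair ((Primrec.const p).pair Primrec.snd))
  exact h2.of_eq fun u => (conn_iff p u.1 u.2).symm

theorem setup_of {Z X : Set ℕ} (hZ : Good Z) (hC : RE Z fun n : ℕ => n ∈ C)
    (hX : RE Z fun n : ℕ => n ∈ X) (hi : X.Infinite) (hs : FinSat C) :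
    Setup Z X (Conn C false) (Conn C true) where
  good := hZ
  reX := hX
  reEv := re_conn hC false
  reOd := re_conn hC true
  infX := hi
  ev_refl := Conn.refl
  ev_symm := fun _ _ h => h.symm
  ev_trans := fun _ _ _ h1 h2 => by simpa using h1.trans h2
  od_symm := fun _ _ h => h.symm
  od_od := fun _ _ _ h1 h2 => by simpa using h1.trans h2
  cons := fun _ _ h => hs.cons h

/-- a set with no oddly connected pair lies inside one colour class of a global colouring -/
theorem exists_colouring (hs : FinSat C) {H : Set ℕ} (hH : ∀ x ∈ H, ∀ y ∈ H, ¬ Conn C true x y) :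
    ∃ ν : Set ℕ, H ⊆ ν ∧ ∀ x y, Nat.pair x y ∈ C → ¬ (x ∈ ν ↔ y ∈ ν) := by
  classical
  let K : ℕ → ℕ → Prop := fun x a =>
    (∃ p, Conn C p x a) ∧ ((∃ b ∈ H, ∃ p, Conn C p x b) → a ∈ H)
  have hK : ∀ x, ∃ a, K x a := by
    intro x
    by_cases h : ∃ b ∈ H, ∃ p, Conn C p x b
    · obtain ⟨b, hb, hp⟩ := h
      exact ⟨b, hp, fun _ => hb⟩
    · exact ⟨x, ⟨false, .refl x⟩, fun h' => absurd h' h⟩
  let r : ℕ → ℕ := fun x => Classical.epsilon (K x)
  have hr : ∀ x, K x (r x) := fun x => Classical.epsilon_spec (hK x)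
  have hconn : ∀ x y, Edge C x y → ∀ a, (∃ p, Conn C p x a) → ∃ p, Conn C p y a :=
    fun x y he a ⟨p, hp⟩ => ⟨_, (Conn.single he.symm).trans hp⟩
  have hKe : ∀ x y, Edge C x y → K x = K y := by
    intro x y he
    funext a
    have e : ∀ a, (∃ p, Conn C p x a) ↔ ∃ p, Conn C p y a :=
      fun a => ⟨hconn x y he a, hconn y x he.symm a⟩
    simp only [K, e]
  refine ⟨{x | Conn C false x (r x)}, fun a ha => ?_, fun x y hxy => ?_⟩
  · obtain ⟨⟨p, hp⟩, h2⟩ := hr a
    have h3 := h2 ⟨a, ha, false, .refl a⟩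
    cases p
    · exact hp
    · exact absurd hp (hH _ ha _ h3)
  · have he : Edge C x y := Or.inl hxy
    have e : r x = r y := by simp only [r, hKe x y he]
    simp only [Set.mem_setOf_eq, ← e]
    obtain ⟨⟨p, hp⟩, -⟩ := hr x
    have hq := (Conn.single he.symm).trans hp
    cases p
    · simp only [Bool.bne_false] at hq
      intro h
      exact hs.cons (h.1 hp) hq
    · simp only [bne_self_eq_false] at hq
      intro h
      exact hs.cons (h.2 hq) hp

/-- one step of the iteration -/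
theorem exists_step (Z C X : Set ℕ) : ∃ H : Set ℕ, (Good Z → Good (join Z H)) ∧
    (Good Z → (RE Z fun n : ℕ => n ∈ C) → (RE Z fun n : ℕ => n ∈ X) → X.Infinite → FinSat C →
      H ⊆ X ∧ H.Infinite ∧ ∀ x ∈ H, ∀ y ∈ H, ¬ Conn C true x y) := by
  by_cases h : Good Z ∧ (RE Z fun n : ℕ => n ∈ C) ∧ (RE Z fun n : ℕ => n ∈ X) ∧ X.Infinite ∧
    FinSat C
  · obtain ⟨h1, h2, h3, h4, h5⟩ := h
    obtain ⟨H, a, b, c, d⟩ := (setup_of h1 h2 h3 h4 h5).exists_solution
    exact ⟨H, fun _ => d, fun _ _ _ _ _ => ⟨a, b, c⟩⟩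
  · exact ⟨Z, fun hZ => hZ.of_dec ((Dec.refl Z).join (Dec.refl Z)),
      fun h1 h2 h3 h4 h5 => absurd ⟨h1, h2, h3, h4, h5⟩ h⟩

end Pool.Agent.P.MP_c78104_lc
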