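import Pool.Agent.P.MP_c78104_lc.Graph

/-!
The omega-model.
-/

set_option autoImplicit false

namespace Pool.Agent.P.MP_c78104_lc

/-- left component of a join -/
def leftPart (A : Set ℕ) : Set ℕ := {n | 2 * n ∈ A}

theorem leftPart_join (A B : Set ℕ) : leftPart (join A B) = A := by
  ext n
  simp [leftPart, join]

/-- the chain of oracles -/
theorem exists_chain : ∃ Zs : ℕ → Set ℕ, (∀ s, Good (Zs s)) ∧ (∀ s, Dec (Zs (s + 1)) (Zs s)) ∧
    ∀ s C X, (RE (Zs s) fun n : ℕ => n ∈ C) → (RE (Zs s) fun n : ℕ => n ∈ X) → X.Infinite →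
      FinSat C → ∃ t H, Dec (Zs t) H ∧ H ⊆ X ∧ H.Infinite ∧
        ∀ x ∈ H, ∀ y ∈ H, ¬ Conn C true x y := by
  obtain ⟨e, he, hsurj⟩ := exists_enum ℕ
  choose sol hsol1 hsol2 using exists_step
  let W : Set ℕ → ℕ → Set ℕ := fun Z i => {a | ∃ k, e i a (seg Z k)}
  let Hs : ℕ → Set ℕ → Set ℕ := fun s Z =>
    sol Z (W (leftPart^[s - s.unpair.1] Z) s.unpair.2.unpair.1)
      (W (leftPart^[s - s.unpair.1] Z) s.unpair.2.unpair.2)
  let Zs : ℕ → Set ℕ := fun s => Nat.rec ∅ (fun s Z => join Z (Hs s Z)) s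
  have hZ : ∀ s, Zs (s + 1) = join (Zs s) (Hs s (Zs s)) := fun s => rfl
  have hgood : ∀ s, Good (Zs s) := by
    intro s
    induction s with
    | zero => exact good_empty
    | succ s ih => rw [hZ]; exact hsol1 _ _ _ ih
  have hdec : ∀ s, Dec (Zs (s + 1)) (Zs s) := fun s => by rw [hZ]; exact dec_join_left _ _
  have hdec' : ∀ s t, s ≤ t → Dec (Zs t) (Zs s) := by
    intro s t hst
    induction t, hst using Nat.le_induction with
    | base => exact Dec.refl _
    | succ t _ ih => exact (hdec t).trans ih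
  have hleft : ∀ s j, leftPart^[j] (Zs (s + j)) = Zs s := by
    intro s j
    induction j with
    | zero => rfl
    | succ j ih => rw [Function.iterate_succ_apply, ← add_assoc, hZ, leftPart_join, ih]
  refine ⟨Zs, hgood, hdec, fun s C X hC hX hi hs => ?_⟩
  obtain ⟨R1, hR1, h1⟩ := id hC
  obtain ⟨R2, hR2, h2⟩ := id hX
  obtain ⟨i1, rfl⟩ := hsurj R1 hR1
  obtain ⟨i2, rfl⟩ := hsurj R2 hR2
  let t := Nat.pair s (Nat.pair i1 i2)
  have hst : s ≤ t := Nat.left_le_pair _ _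
  have hl : leftPart^[t - s] (Zs t) = Zs s := by
    have := hleft s (t - s)
    rwa [Nat.add_sub_cancel' hst] at this
  have e1 : W (Zs s) i1 = C := by
    ext a
    exact (h1 a).symm
  have e2 : W (Zs s) i2 = X := by
    ext a
    exact (h2 a).symm
  have hH : Hs t (Zs t) = sol (Zs t) C X := by
    simp only [Hs, t, Nat.unpair_pair]
    rw [hl, e1, e2]
  refine ⟨t + 1, sol (Zs t) C X, ?_, hsol2 _ _ _ (hgood t) (RE.trans (hdec' s t hst) hC)
    (RE.trans (hdec' s t hst) hX) hi hs⟩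
  rw [hZ, hH]
  exact dec_join_right _ _

theorem Tm.primrec {α : Type} [Primcodable α] {g : α → ℕ → ℕ} (hg : Primrec₂ g) (t : Tm) :
    Primrec fun a => t.val (g a) := by
  induction t with
  | var i => exact hg.comp Primrec.id (Primrec.const i)
  | zero => exact Primrec.const 0
  | one => exact Primrec.const 1
  | add s t ihs iht => exact Primrec.nat_add.comp ihs iht
  | mul s t ihs iht => exact Primrec.nat_mul.comp ihs iht

theorem primrec_update {α : Type} [Primcodable α] {g : α → ℕ → ℕ} (hg : Primrec₂ g) (i : ℕ)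
    {x : α → ℕ} (hx : Primrec x) : Primrec₂ fun a => Function.update (g a) i (x a) := by
  refine (Primrec.ite (c := fun p : α × ℕ => p.2 = i)
    (Primrec.eq.comp Primrec.snd (Primrec.const i)) (hx.comp Primrec.fst) hg).of_eq fun p => ?_
  simp [Function.update_apply]

section chain

variable {Zs : ℕ → Set ℕ}

/-- the ideal generated by a chain -/
def Ideal (Zs : ℕ → Set ℕ) : Set (Set ℕ) := {A | ∃ s, Dec (Zs s) A}

theorem chain_mono (hdec : ∀ s, Dec (Zs (s + 1)) (Zs s)) {s t : ℕ} (hst : s ≤ t) :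
    Dec (Zs t) (Zs s) := by
  induction t, hst using Nat.le_induction with
  | base => exact Dec.refl _
  | succ t _ ih => exact (hdec t).trans ih

theorem Fm.dec (hdec : ∀ s, Dec (Zs (s + 1)) (Zs s)) {S : ℕ → Set ℕ} (hS : ∀ j, S j ∈ Ideal Zs)
    (φ : Fm) : ∃ s, ∀ (α : Type) [Primcodable α] (g : α → ℕ → ℕ), Primrec₂ g →
      (RE (Zs s) fun a => φ.Holds S (g a)) ∧ RE (Zs s) fun a => ¬ φ.Holds S (g a) := by
  induction φ with
  | eq s t =>
    refine ⟨0, fun α _ g hg => ?_⟩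
    have := Primrec.eq.comp (s.primrec hg) (t.primrec hg)
    exact ⟨RE.of_prim this, RE.of_prim this.not⟩
  | lt s t =>
    refine ⟨0, fun α _ g hg => ?_⟩
    have := Primrec.nat_lt.comp (s.primrec hg) (t.primrec hg)
    exact ⟨RE.of_prim this, RE.of_prim this.not⟩
  | mem t j =>
    obtain ⟨s, hs⟩ := hS j
    exact ⟨s, fun α _ g hg => ⟨hs.1.comp (t.primrec hg), hs.2.comp (t.primrec hg)⟩⟩
  | not φ ih =>
    obtain ⟨s, hs⟩ := ih
    refine ⟨s, fun α _ g hg => ⟨(hs α g hg).2, (hs α g hg).1.of_eq fun a => ?_⟩⟩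
    simp [Fm.Holds]
  | and φ ψ ih1 ih2 =>
    obtain ⟨s, hs⟩ := ih1
    obtain ⟨t, ht⟩ := ih2
    have d1 := chain_mono hdec (le_max_left s t)
    have d2 := chain_mono hdec (le_max_right s t)
    refine ⟨max s t, fun α _ g hg => ⟨(RE.trans d1 (hs α g hg).1).and (RE.trans d2 (ht α g hg).1),
      ((RE.trans d1 (hs α g hg).2).or (RE.trans d2 (ht α g hg).2)).of_eq fun a => ?_⟩⟩
    simp only [Fm.Holds]
    tauto
  | ball i t φ ih =>
    obtain ⟨s, hs⟩ := ih
    refine ⟨s, fun α _ g hg => ?_⟩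
    have hg' : Primrec₂ fun p : α × ℕ => Function.update (g p.1) i p.2 :=
      primrec_update (g := fun p : α × ℕ => g p.1)
        (hg.comp (Primrec.fst.comp Primrec.fst) Primrec.snd) i Primrec.snd
    obtain ⟨h1, h2⟩ := hs (α × ℕ) _ hg'
    constructor
    · exact RE.forall_lt (P := fun a x => φ.Holds S (Function.update (g a) i x)) h1 (t.primrec hg)
    · refine (RE.exists_nat (P := fun a x => x < t.val (g a) ∧
        ¬ φ.Holds S (Function.update (g a) i x)) (RE.and (RE.of_prim ?_) h2)).of_eq fun a => ?_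
      · exact Primrec.nat_lt.comp Primrec.snd ((t.primrec hg).comp Primrec.fst)
      · simp [Fm.Holds]

theorem primrec_val (v : ℕ → ℕ) (N : ℕ) :
    Primrec fun i : ℕ => if i < N then v i else 0 := by
  refine ((Primrec.list_getD 0).comp (Primrec.const ((List.range N).map v)) Primrec.id).of_eq
    fun i => ?_
  by_cases h : i < N <;> simp [List.getD, h]

theorem Tm.bound (t : Tm) : ∃ N, ∀ v w : ℕ → ℕ, (∀ i < N, v i = w i) → t.val v = t.val w := by
  induction t with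
  | var i => exact ⟨i + 1, fun v w h => h i (by omega)⟩
  | zero => exact ⟨0, fun _ _ _ => rfl⟩
  | one => exact ⟨0, fun _ _ _ => rfl⟩
  | add s t ihs iht =>
    obtain ⟨a, ha⟩ := ihs
    obtain ⟨b, hb⟩ := iht
    refine ⟨max a b, fun v w h => ?_⟩
    simp only [Tm.val, ha v w fun i hi => h i (by omega), hb v w fun i hi => h i (by omega)]
  | mul s t ihs iht =>
    obtain ⟨a, ha⟩ := ihs
    obtain ⟨b, hb⟩ := iht
    refine ⟨max a b, fun v w h => ?_⟩
    simp only [Tm.val, ha v w fun i hi => h i (by omega), hb v w fun i hi => h i (by omega)]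

theorem Fm.bound (S : ℕ → Set ℕ) (φ : Fm) :
    ∃ N, ∀ v w : ℕ → ℕ, (∀ i < N, v i = w i) → (φ.Holds S v ↔ φ.Holds S w) := by
  induction φ with
  | eq s t =>
    obtain ⟨a, ha⟩ := s.bound
    obtain ⟨b, hb⟩ := t.bound
    refine ⟨max a b, fun v w h => ?_⟩
    simp only [Fm.Holds, ha v w fun i hi => h i (by omega), hb v w fun i hi => h i (by omega)]
  | lt s t =>
    obtain ⟨a, ha⟩ := s.bound
    obtain ⟨b, hb⟩ := t.bound
    refine ⟨max a b, fun v w h => ?_⟩
    simp only [Fm.Holds, ha v w fun i hi => h i (by omega), hb v w fun i hi => h i (by omega)]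
  | mem t j =>
    obtain ⟨b, hb⟩ := t.bound
    refine ⟨b, fun v w h => ?_⟩
    simp only [Fm.Holds, hb v w h]
  | not φ ih =>
    obtain ⟨b, hb⟩ := ih
    refine ⟨b, fun v w h => ?_⟩
    simp only [Fm.Holds, hb v w h]
  | and φ ψ ih1 ih2 =>
    obtain ⟨a, ha⟩ := ih1
    obtain ⟨b, hb⟩ := ih2
    refine ⟨max a b, fun v w h => ?_⟩
    simp only [Fm.Holds, ha v w fun i hi => h i (by omega), hb v w fun i hi => h i (by omega)]
  | ball j t φ ih =>
    obtain ⟨a, ha⟩ := t.bound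
    obtain ⟨b, hb⟩ := ih
    refine ⟨max a b, fun v w h => ?_⟩
    simp only [Fm.Holds, ha v w fun i hi => h i (by omega)]
    refine forall_congr' fun x => forall_congr' fun _ => hb _ _ fun i hi => ?_
    simp only [Function.update_apply]
    split_ifs
    · rfl
    · exact h i (by omega)

theorem Fm.dec₂ (hdec : ∀ s, Dec (Zs (s + 1)) (Zs s)) {S : ℕ → Set ℕ} (hS : ∀ j, S j ∈ Ideal Zs)
    (φ : Fm) (v : ℕ → ℕ) : ∃ s, (RE (Zs s) fun p : ℕ × ℕ => φ.Holds₂ S v p.1 p.2) ∧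
      RE (Zs s) fun p : ℕ × ℕ => ¬ φ.Holds₂ S v p.1 p.2 := by
  obtain ⟨s, hs⟩ := φ.dec hdec hS
  obtain ⟨N, hN⟩ := φ.bound S
  let w : ℕ → ℕ := fun i => if i < N then v i else 0
  have h1 : Primrec₂ fun p : ℕ × ℕ => Function.update (Function.update w 0 p.1) 1 p.2 :=
    primrec_update (primrec_update (g := fun _ : ℕ × ℕ => w)
      ((primrec_val v N).comp Primrec.snd) 0 Primrec.fst) 1 Primrec.snd
  have e : ∀ p : ℕ × ℕ, φ.Holds S (Function.update (Function.update w 0 p.1) 1 p.2) ↔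
      φ.Holds₂ S v p.1 p.2 := fun p => hN _ _ fun i hi => by
    simp only [Function.update_apply, w, hi, if_true]
  obtain ⟨a, b⟩ := hs _ _ h1
  exact ⟨s, a.of_eq e, b.of_eq fun p => not_congr (e p)⟩

theorem ideal_model (hdec : ∀ s, Dec (Zs (s + 1)) (Zs s)) : IsModelRCA0 (Ideal Zs) where
  nonempty := ⟨Zs 0, 0, Dec.refl _⟩
  sigma01_induction := fun _ _ _ _ h0 hs n => Nat.rec h0 hs n
  delta01_comprehension := by
    intro θ η S v hS h
    obtain ⟨s, hs, -⟩ := θ.dec₂ hdec hS v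
    obtain ⟨t, -, ht⟩ := η.dec₂ hdec hS v
    refine ⟨{n | ∃ m, θ.Holds₂ S v n m}, ⟨max s t, ?_, ?_⟩, fun n => Iff.rfl⟩
    · exact RE.trans (chain_mono hdec (le_max_left s t))
        (RE.exists_nat (P := fun n m => θ.Holds₂ S v n m) hs)
    · refine (RE.trans (chain_mono hdec (le_max_right s t))
        (RE.exists_nat (P := fun n m => ¬ η.Holds₂ S v n m) ht)).of_eq fun n => ?_
      simp only [Set.mem_setOf_eq, h n, not_forall]

theorem cofinite_mem (N : Finset ℕ) : {a | a ∉ N} ∈ Ideal Zs := by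
  refine ⟨0, Dec.of_prim ((pr_mem.comp Primrec.id (Primrec.const N.toList)).not.of_eq ?_)⟩
  simp

theorem ideal_rcolor2 (hdec : ∀ s, Dec (Zs (s + 1)) (Zs s))
    (hsol : ∀ s C X, (RE (Zs s) fun n : ℕ => n ∈ C) → (RE (Zs s) fun n : ℕ => n ∈ X) →
      X.Infinite → FinSat C → ∃ t H, Dec (Zs t) H ∧ H ⊆ X ∧ H.Infinite ∧
        ∀ x ∈ H, ∀ y ∈ H, ¬ Conn C true x y) : RCOLOR2 (Ideal Zs) := by
  classical
  rintro V - C ⟨s, hC⟩ X ⟨t, hX⟩ - - hsat - hi
  have hfs : FinSat C := fun F hF => by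
    obtain ⟨ν, -, hν⟩ := hsat F hF
    exact ⟨ν, hν⟩
  obtain ⟨u, H, h1, h2, h3, h4⟩ := hsol (max s t) C X
    (RE.trans (chain_mono hdec (le_max_left s t)) hC.1)
    (RE.trans (chain_mono hdec (le_max_right s t)) hX.1) hi hfs
  obtain ⟨ν, hν1, hν2⟩ := exists_colouring hfs h4
  refine ⟨H, ⟨u, h1⟩, h2, h3, true, fun F hF => ?_⟩
  let vars : Finset ℕ := F.image (fun p => p.unpair.1) ∪ F.image fun p => p.unpair.2
  refine ⟨{a | a ∉ vars.filter (· ∉ ν)}, cofinite_mem _, fun x y hxy => ?_, fun a ha => ?_⟩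
  · have hx : x ∈ vars := Finset.mem_union_left _ (Finset.mem_image.2 ⟨_, hxy, by simp⟩)
    have hy : y ∈ vars := Finset.mem_union_right _ (Finset.mem_image.2 ⟨_, hxy, by simp⟩)
    have := hν2 x y (hF hxy)
    simpa [hx, hy] using this
  · simp [hν1 ha]

end chain

end Pool.Agent.P.MP_c78104_lc
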