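import Mathlib

/-!
Predicates that are recursively enumerable in an oracle `Z`, in normal form.
-/

set_option autoImplicit false

namespace Pool.Agent.P.MP_c78104_lc

open Classical in
/-- initial segment of the characteristic function -/
noncomputable def seg (Z : Set ℕ) (k : ℕ) : List Bool :=
  (List.range k).map fun i => decide (i ∈ Z)

@[simp] theorem seg_length (Z : Set ℕ) (k : ℕ) : (seg Z k).length = k := by simp [seg]

open Classical in
theorem seg_getElem? (Z : Set ℕ) (k i : ℕ) :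
    (seg Z k)[i]? = if i < k then some (decide (i ∈ Z)) else none := by
  unfold seg
  by_cases h : i < k
  · simp [h]
  · simp [h]

theorem seg_take (Z : Set ℕ) {j k : ℕ} (h : j ≤ k) : (seg Z k).take j = seg Z j := by
  unfold seg
  rw [← List.map_take, List.take_range, min_eq_left h]

theorem seg_congr {Z Z' : Set ℕ} {k : ℕ} (h : ∀ i < k, i ∈ Z ↔ i ∈ Z') : seg Z k = seg Z' k := by
  unfold seg
  apply List.map_congr_left
  intro i hi
  simp only [List.mem_range] at hi
  simp [h i hi]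

/-- r.e. in the oracle `Z` -/
def RE (Z : Set ℕ) {α : Type} [Primcodable α] (P : α → Prop) : Prop :=
  ∃ R : α → List Bool → Prop, PrimrecRel R ∧ ∀ a, P a ↔ ∃ k, R a (seg Z k)

section prim

variable {α β : Type} [Primcodable α] [Primcodable β]

theorem pr_exists_mem {R : α → β → Prop} (hR : PrimrecRel R) {g : α → List β} (hg : Primrec g) :
    PrimrecPred fun a => ∃ b ∈ g a, R a b :=
  (PrimrecRel.exists_mem_list hR.swap).comp hg Primrec.id

theorem pr_forall_mem {R : α → β → Prop} (hR : PrimrecRel R) {g : α → List β} (hg : Primrec g) :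
    PrimrecPred fun a => ∀ b ∈ g a, R a b :=
  (PrimrecRel.forall_mem_list hR.swap).comp hg Primrec.id

theorem pr_exists_lt {R : α → ℕ → Prop} (hR : PrimrecRel R) {g : α → ℕ} (hg : Primrec g) :
    PrimrecPred fun a => ∃ b < g a, R a b :=
  (pr_exists_mem hR (Primrec.list_range.comp hg)).of_eq (by simp)

theorem pr_forall_lt {R : α → ℕ → Prop} (hR : PrimrecRel R) {g : α → ℕ} (hg : Primrec g) :
    PrimrecPred fun a => ∀ b < g a, R a b :=
  (pr_forall_mem hR (Primrec.list_range.comp hg)).of_eq (by simp)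

theorem pr_mem : PrimrecRel fun (a : α) (l : List α) => a ∈ l :=
  (pr_exists_mem (R := fun (p : α × List α) (b : α) => b = p.1)
    (Primrec.eq.comp Primrec.snd (Primrec.fst.comp Primrec.fst)) Primrec.snd).of_eq (by simp)

theorem pr_imp {p q : α → Prop} (hp : PrimrecPred p) (hq : PrimrecPred q) :
    PrimrecPred fun a => p a → q a :=
  (hp.not.or hq).of_eq fun a => by tauto

end prim

namespace RE

variable {Z : Set ℕ} {α β γ : Type} [Primcodable α] [Primcodable β] [Primcodable γ]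

theorem of_eq {P Q : α → Prop} (h : RE Z P) (H : ∀ a, P a ↔ Q a) : RE Z Q :=
  (funext fun a => propext (H a) : P = Q) ▸ h

theorem mono_form {P : α → Prop} (h : RE Z P) :
    ∃ R : α → List Bool → Prop, PrimrecRel R ∧
      (∀ a k k', k ≤ k' → R a (seg Z k) → R a (seg Z k')) ∧ ∀ a, P a ↔ ∃ k, R a (seg Z k) := by
  obtain ⟨R, hR, H⟩ := h
  refine ⟨fun a s => ∃ j < s.length + 1, R a (s.take j), ?_, ?_, ?_⟩
  · refine pr_exists_lt (α := α × List Bool) (R := fun p j => R p.1 (p.2.take j)) ?_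
      (Primrec.succ.comp (Primrec.list_length.comp Primrec.snd))
    exact hR.comp (Primrec.fst.comp Primrec.fst)
      (Primrec.list_take.comp Primrec.snd (Primrec.snd.comp Primrec.fst))
  · rintro a k k' hk ⟨j, hj, hj'⟩
    simp only [seg_length] at hj
    refine ⟨j, by simp only [seg_length]; omega, ?_⟩
    rw [seg_take Z (by omega)] at hj' ⊢
    exact hj'
  · intro a
    rw [H]
    constructor
    · rintro ⟨k, hk⟩
      exact ⟨k, k, by simp, by rwa [seg_take Z le_rfl]⟩
    · rintro ⟨k, j, hj, hj'⟩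
      simp only [seg_length] at hj
      rw [seg_take Z (by omega)] at hj'
      exact ⟨j, hj'⟩

theorem of_prim {P : α → Prop} (h : PrimrecPred P) : RE Z P :=
  ⟨fun a _ => P a, h.comp Primrec.fst, fun a => by simp⟩

theorem comp {P : β → Prop} (h : RE Z P) {g : α → β} (hg : Primrec g) :
    RE Z fun a => P (g a) := by
  obtain ⟨R, hR, H⟩ := h
  exact ⟨fun a s => R (g a) s, hR.comp (hg.comp Primrec.fst) Primrec.snd, fun a => H _⟩

theorem and {P Q : α → Prop} (hP : RE Z P) (hQ : RE Z Q) : RE Z fun a => P a ∧ Q a := by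
  obtain ⟨R, hR, mR, H⟩ := hP.mono_form
  obtain ⟨S, hS, mS, K⟩ := hQ.mono_form
  refine ⟨fun a s => R a s ∧ S a s, PrimrecPred.and hR hS, fun a => ?_⟩
  beta_reduce
  rw [H, K]
  constructor
  · rintro ⟨⟨k, hk⟩, ⟨l, hl⟩⟩
    exact ⟨max k l, mR _ _ _ (le_max_left _ _) hk, mS _ _ _ (le_max_right _ _) hl⟩
  · rintro ⟨k, h1, h2⟩
    exact ⟨⟨k, h1⟩, ⟨k, h2⟩⟩

theorem or {P Q : α → Prop} (hP : RE Z P) (hQ : RE Z Q) : RE Z fun a => P a ∨ Q a := by
  obtain ⟨R, hR, H⟩ := hP
  obtain ⟨S, hS, K⟩ := hQ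
  refine ⟨fun a s => R a s ∨ S a s, PrimrecPred.or hR hS, fun a => ?_⟩
  beta_reduce
  rw [H, K, exists_or]

theorem exists_nat {P : α → ℕ → Prop} (h : RE Z fun p : α × ℕ => P p.1 p.2) :
    RE Z fun a => ∃ b, P a b := by
  obtain ⟨R, hR, mR, H⟩ := h.mono_form
  refine ⟨fun a s => ∃ b < s.length, R (a, b) s, ?_, fun a => ?_⟩
  · refine pr_exists_lt (α := α × List Bool) (R := fun p b => R (p.1, b) p.2) ?_
      (Primrec.list_length.comp Primrec.snd)
    exact hR.comp ((Primrec.fst.comp Primrec.fst).pair Primrec.snd) (Primrec.snd.comp Primrec.fst)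
  · constructor
    · rintro ⟨b, hb⟩
      obtain ⟨k, hk⟩ := (H (a, b)).1 hb
      exact ⟨max k (b + 1), b, by simp, mR _ _ _ (le_max_left _ _) hk⟩
    · rintro ⟨k, b, -, hb⟩
      exact ⟨b, (H (a, b)).2 ⟨k, hb⟩⟩

theorem forall_mem {P : α → β → Prop} (h : RE Z fun p : α × β => P p.1 p.2) {g : α → List β}
    (hg : Primrec g) : RE Z fun a => ∀ b ∈ g a, P a b := by
  obtain ⟨R, hR, mR, H⟩ := h.mono_form
  refine ⟨fun a s => ∀ b ∈ g a, R (a, b) s, ?_, fun a => ?_⟩
  · refine pr_forall_mem (α := α × List Bool) (R := fun p b => R (p.1, b) p.2) ?_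
      (hg.comp Primrec.fst)
    exact hR.comp ((Primrec.fst.comp Primrec.fst).pair Primrec.snd) (Primrec.snd.comp Primrec.fst)
  · beta_reduce
    constructor
    · generalize g a = l
      intro hl
      induction l with
      | nil => exact ⟨0, by simp⟩
      | cons b l ih =>
        obtain ⟨k, hk⟩ := ih fun c hc => hl c (List.mem_cons_of_mem _ hc)
        obtain ⟨j, hj⟩ := (H (a, b)).1 (hl b List.mem_cons_self)
        refine ⟨max k j, fun c hc => ?_⟩
        rcases List.mem_cons.1 hc with rfl | hc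
        · exact mR _ _ _ (le_max_right _ _) hj
        · exact mR _ _ _ (le_max_left _ _) (hk c hc)
    · rintro ⟨k, hk⟩ b hb
      exact (H (a, b)).2 ⟨k, hk b hb⟩

theorem forall_lt {P : α → ℕ → Prop} (h : RE Z fun p : α × ℕ => P p.1 p.2) {g : α → ℕ}
    (hg : Primrec g) : RE Z fun a => ∀ b < g a, P a b :=
  (h.forall_mem (Primrec.list_range.comp hg)).of_eq (by simp)

theorem exists_mem {P : α → β → Prop} (h : RE Z fun p : α × β => P p.1 p.2) {g : α → List β}
    (hg : Primrec g) : RE Z fun a => ∃ b ∈ g a, P a b := by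
  obtain ⟨R, hR, H⟩ := h
  refine ⟨fun a s => ∃ b ∈ g a, R (a, b) s, ?_, fun a => ?_⟩
  · refine pr_exists_mem (α := α × List Bool) (R := fun p b => R (p.1, b) p.2) ?_
      (hg.comp Primrec.fst)
    exact hR.comp ((Primrec.fst.comp Primrec.fst).pair Primrec.snd) (Primrec.snd.comp Primrec.fst)
  · constructor
    · rintro ⟨b, hb, hb'⟩
      obtain ⟨k, hk⟩ := (H (a, b)).1 hb'
      exact ⟨k, b, hb, hk⟩
    · rintro ⟨k, b, hb, hb'⟩
      exact ⟨b, hb, (H (a, b)).2 ⟨k, hb'⟩⟩

theorem ex {P : α → β → Prop} (h : RE Z fun p : α × β => P p.1 p.2) :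
    RE Z fun a => ∃ b, P a b := by
  have h1 : RE Z fun p : α × ℕ => ∃ b ∈ (Encodable.decode (α := β) p.2).toList, P p.1 b := by
    refine exists_mem (P := fun (p : α × ℕ) (b : β) => P p.1 b) ?_
      (Primrec.optionToList.comp (Primrec.decode.comp Primrec.snd))
    exact h.comp ((Primrec.fst.comp Primrec.fst).pair Primrec.snd)
  refine (exists_nat (P := fun a n => ∃ b ∈ (Encodable.decode (α := β) n).toList, P a b) h1).of_eq
    fun a => ?_
  constructor
  · rintro ⟨n, b, -, hb⟩
    exact ⟨b, hb⟩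
  · rintro ⟨b, hb⟩
    exact ⟨Encodable.encode b, b, by simp, hb⟩

theorem seg_rel {R : α → List Bool → Prop} (hR : PrimrecRel R) {g : α → ℕ} (hg : Primrec g) :
    RE Z fun a => R a (seg Z (g a)) := by
  refine ⟨fun a s => s.length = g a ∧ R a s, ?_, fun a => ?_⟩
  · exact PrimrecPred.and
      (Primrec.eq.comp (Primrec.list_length.comp Primrec.snd) (hg.comp Primrec.fst)) hR
  · constructor
    · intro h
      exact ⟨g a, by simp, h⟩
    · rintro ⟨k, hk, h⟩
      simp only [seg_length] at hk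
      rwa [← hk]

theorem mem_oracle : RE Z fun a : ℕ => a ∈ Z := by
  have : PrimrecRel fun (a : ℕ) (s : List Bool) => s[a]? = some true :=
    Primrec.eq.comp (Primrec.list_getElem?.comp Primrec.snd Primrec.fst) (Primrec.const _)
  refine (seg_rel this Primrec.succ).of_eq fun a => ?_
  rw [seg_getElem?]
  simp

theorem not_mem_oracle : RE Z fun a : ℕ => a ∉ Z := by
  have : PrimrecRel fun (a : ℕ) (s : List Bool) => s[a]? = some false :=
    Primrec.eq.comp (Primrec.list_getElem?.comp Primrec.snd Primrec.fst) (Primrec.const _)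
  refine (seg_rel this Primrec.succ).of_eq fun a => ?_
  rw [seg_getElem?]
  simp

/-- initial segments of a uniformly decidable family of sets -/
theorem seg_eq {A : α → Set ℕ} (h1 : RE Z fun p : α × ℕ => p.2 ∈ A p.1)
    (h2 : RE Z fun p : α × ℕ => p.2 ∉ A p.1) :
    RE Z fun p : (α × ℕ) × List Bool => p.2 = seg (A p.1.1) p.1.2 := by
  have hlen : RE Z fun p : (α × ℕ) × List Bool => p.2.length = p.1.2 :=
    of_prim (Primrec.eq.comp (Primrec.list_length.comp Primrec.snd)
      (Primrec.snd.comp Primrec.fst))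
  have hget : ∀ b : Bool, RE Z fun q : ((α × ℕ) × List Bool) × ℕ => q.1.2[q.2]? = some b :=
    fun b => of_prim (Primrec.eq.comp (Primrec.list_getElem?.comp
      (Primrec.snd.comp Primrec.fst) Primrec.snd) (Primrec.const _))
  have hproj : Primrec fun q : ((α × ℕ) × List Bool) × ℕ => (q.1.1.1, q.2) :=
    (Primrec.fst.comp (Primrec.fst.comp Primrec.fst)).pair Primrec.snd
  have hall := forall_lt (Z := Z) (P := fun (p : (α × ℕ) × List Bool) (i : ℕ) =>
      (p.2[i]? = some true ∧ i ∈ A p.1.1) ∨ (p.2[i]? = some false ∧ i ∉ A p.1.1))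
    (((hget true).and (h1.comp hproj)).or ((hget false).and (h2.comp hproj)))
    (Primrec.snd.comp Primrec.fst)
  refine (hlen.and hall).of_eq ?_
  rintro ⟨⟨a, k⟩, s⟩
  simp only
  constructor
  · rintro ⟨hl, h⟩
    apply List.ext_getElem?
    intro i
    rw [seg_getElem?]
    split_ifs with hi
    · rcases h i hi with ⟨h1, h2⟩ | ⟨h1, h2⟩ <;> simp [h1, h2]
    · simp; omega
  · rintro rfl
    refine ⟨by simp, fun i hi => ?_⟩
    rw [seg_getElem?]
    by_cases h : i ∈ A a <;> simp [hi, h]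

/-- a primitive recursive matrix applied to segments of a decidable family -/
theorem seg_family {A : α → Set ℕ} (h1 : RE Z fun p : α × ℕ => p.2 ∈ A p.1)
    (h2 : RE Z fun p : α × ℕ => p.2 ∉ A p.1) {R : β → List Bool → Prop} (hR : PrimrecRel R) :
    RE Z fun p : (α × ℕ) × β => R p.2 (seg (A p.1.1) p.1.2) := by
  have := ex (Z := Z) (P := fun (p : (α × ℕ) × β) (s : List Bool) =>
      s = seg (A p.1.1) p.1.2 ∧ R p.2 s)
    (((seg_eq h1 h2).comp ((Primrec.fst.comp Primrec.fst).pair Primrec.snd)).and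
      (of_prim (hR.comp (Primrec.snd.comp Primrec.fst) Primrec.snd)))
  exact this.of_eq (by simp)

end RE

/-- decidable in the oracle -/
def Dec (Z A : Set ℕ) : Prop := RE Z (fun n : ℕ => n ∈ A) ∧ RE Z fun n : ℕ => n ∉ A

theorem Dec.refl (Z : Set ℕ) : Dec Z Z := ⟨RE.mem_oracle, RE.not_mem_oracle⟩

theorem RE.trans {Z Z' : Set ℕ} {α : Type} [Primcodable α] {P : α → Prop} (hZ : Dec Z' Z)
    (h : RE Z P) : RE Z' P := by
  obtain ⟨R, hR, H⟩ := h
  have h1 := RE.seg_family (Z := Z') (α := ℕ) (A := fun _ => Z) (hZ.1.comp Primrec.snd)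
    (hZ.2.comp Primrec.snd) hR
  have h2 : RE Z' fun p : α × ℕ => R p.1 (seg Z p.2) :=
    h1.comp (g := fun p : α × ℕ => ((0, p.2), p.1))
      (((Primrec.const 0).pair Primrec.snd).pair Primrec.fst)
  exact (RE.exists_nat (P := fun a k => R a (seg Z k)) h2).of_eq fun a => (H a).symm

theorem Dec.trans {A B C : Set ℕ} (h1 : Dec A B) (h2 : Dec B C) : Dec A C :=
  ⟨RE.trans h1 h2.1, RE.trans h1 h2.2⟩

theorem Dec.of_prim {Z A : Set ℕ} (h : PrimrecPred fun n : ℕ => n ∈ A) : Dec Z A :=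
  ⟨RE.of_prim h, RE.of_prim h.not⟩

end Pool.Agent.P.MP_c78104_lc
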