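import Pool.Agent.P.MP_c78104_lc.RE

/-!
Uniformization, reachability, dependent choice, and oracles that compute no DNR function.
-/

set_option autoImplicit false

namespace Pool.Agent.P.MP_c78104_lc

namespace RE

variable {Z : Set ℕ} {α β γ : Type} [Primcodable α] [Primcodable β] [Primcodable γ]

theorem uniformize {S : α → β → Prop} (h : RE Z fun p : α × β => S p.1 p.2) :
    ∃ G : α → β → Prop, (RE Z fun p : α × β => G p.1 p.2) ∧ (∀ a b, G a b → S a b) ∧
      (∀ a b b', G a b → G a b' → b = b') ∧ ∀ a b, S a b → ∃ b', G a b' := by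
  classical
  obtain ⟨R, hR, H⟩ := h
  let M : α × ℕ → List Bool → Prop := fun p s =>
    ∃ b ∈ (Encodable.decode (α := β) p.2.unpair.1).toList, R (p.1, b) s
  have hM : PrimrecRel M := by
    refine pr_exists_mem (α := (α × ℕ) × List Bool) (R := fun q (b : β) => R (q.1.1, b) q.2) ?_
      (Primrec.optionToList.comp (Primrec.decode.comp (Primrec.fst.comp
        (Primrec.unpair.comp (Primrec.snd.comp Primrec.fst)))))
    exact hR.comp ((Primrec.fst.comp (Primrec.fst.comp Primrec.fst)).pair Primrec.snd)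
      (Primrec.snd.comp Primrec.fst)
  have hg : Primrec fun p : α × ℕ => p.2.unpair.2 :=
    Primrec.snd.comp (Primrec.unpair.comp Primrec.snd)
  let T : α → ℕ → Prop := fun a w => M (a, w) (seg Z w.unpair.2)
  have hT : RE Z fun p : α × ℕ => T p.1 p.2 := seg_rel hM hg
  have hnT : RE Z fun p : α × ℕ => ¬ T p.1 p.2 := seg_rel hM.not hg
  refine ⟨fun a b => ∃ w : ℕ, Encodable.decode (α := β) w.unpair.1 = some b ∧ T a w ∧
    ∀ w' < w, ¬ T a w', ?_, ?_, ?_, ?_⟩
  · refine exists_nat (P := fun (p : α × β) (w : ℕ) =>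
      Encodable.decode (α := β) w.unpair.1 = some p.2 ∧ T p.1 w ∧ ∀ w' < w, ¬ T p.1 w') ?_
    refine (of_prim ?_).and (RE.and ?_ ?_)
    · exact Primrec.eq.comp (Primrec.decode.comp (Primrec.fst.comp
        (Primrec.unpair.comp Primrec.snd)))
        (Primrec.option_some.comp (Primrec.snd.comp Primrec.fst))
    · exact hT.comp ((Primrec.fst.comp Primrec.fst).pair Primrec.snd)
    · refine forall_lt (P := fun (q : (α × β) × ℕ) (w' : ℕ) => ¬ T q.1.1 w') ?_ Primrec.snd
      exact hnT.comp ((Primrec.fst.comp (Primrec.fst.comp Primrec.fst)).pair Primrec.snd)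
  · rintro a b ⟨w, hw, ⟨b', hb', hR'⟩, -⟩
    simp only [hw, Option.toList_some, List.mem_singleton] at hb'
    subst hb'
    exact (H (a, b')).2 ⟨_, hR'⟩
  · rintro a b b' ⟨w, hw, hT1, hmin⟩ ⟨w', hw', hT2, hmin'⟩
    have : w = w' := by
      rcases lt_trichotomy w w' with h | h | h
      · exact absurd hT1 (hmin' _ h)
      · exact h
      · exact absurd hT2 (hmin _ h)
    subst this
    rw [hw] at hw'
    exact Option.some.inj hw'
  · intro a b hab
    obtain ⟨k, hk⟩ := (H (a, b)).1 hab
    have hex : ∃ w, T a w := ⟨Nat.pair (Encodable.encode b) k, b, by simp, by simpa using hk⟩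
    obtain ⟨b', hb', hR'⟩ := Nat.find_spec hex
    refine ⟨b', Nat.find hex, ?_, Nat.find_spec hex, fun w' hw' => Nat.find_min hex hw'⟩
    simpa using hb'

theorem reflTransGen_iff {R : α → α → Prop} (a b : α) :
    Relation.ReflTransGen R a b ↔ ∃ n : ℕ, ∃ l : List α, l[0]? = some a ∧ l[n]? = some b ∧
      ∀ j < n, ∃ x y, l[j]? = some x ∧ l[j + 1]? = some y ∧ R x y := by
  constructor
  · intro h
    induction h using Relation.ReflTransGen.head_induction_on with
    | refl => exact ⟨0, [b], by simp, by simp, by simp⟩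
    | @head a c hac _ ih =>
      obtain ⟨n, l, h0, hn, hj⟩ := ih
      refine ⟨n + 1, a :: l, by simp, by simpa using hn, fun j hj' => ?_⟩
      cases j with
      | zero => exact ⟨a, c, by simp, by simpa using h0, hac⟩
      | succ j =>
        obtain ⟨x, y, h1, h2, h3⟩ := hj j (by omega)
        exact ⟨x, y, by simpa using h1, by simpa using h2, h3⟩
  · rintro ⟨n, l, h0, hn, hj⟩
    induction n generalizing b with
    | zero =>
      rw [h0] at hn
      cases hn
      exact .refl
    | succ n ih =>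
      obtain ⟨x, y, h1, h2, h3⟩ := hj n (by omega)
      rw [h2] at hn
      cases hn
      exact (ih x h1 fun j hj' => hj j (by omega)).tail h3

theorem reflTransGen {R : α → α → Prop} (h : RE Z fun p : α × α => R p.1 p.2) :
    RE Z fun p : α × α => Relation.ReflTransGen R p.1 p.2 := by
  have hstep : RE Z fun q : List α × ℕ =>
      ∃ x y, q.1[q.2]? = some x ∧ q.1[q.2 + 1]? = some y ∧ R x y := by
    refine ex (P := fun (q : List α × ℕ) (x : α) =>
      ∃ y, q.1[q.2]? = some x ∧ q.1[q.2 + 1]? = some y ∧ R x y) ?_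
    refine ex (P := fun (r : (List α × ℕ) × α) (y : α) =>
      r.1.1[r.1.2]? = some r.2 ∧ r.1.1[r.1.2 + 1]? = some y ∧ R r.2 y) ?_
    have hl : Primrec fun u : ((List α × ℕ) × α) × α => u.1.1.1 :=
      Primrec.fst.comp (Primrec.fst.comp Primrec.fst)
    have hj : Primrec fun u : ((List α × ℕ) × α) × α => u.1.1.2 :=
      Primrec.snd.comp (Primrec.fst.comp Primrec.fst)
    have hx : Primrec fun u : ((List α × ℕ) × α) × α => u.1.2 := Primrec.snd.comp Primrec.fst
    refine (of_prim ?_).and ((of_prim ?_).and ?_)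
    · exact Primrec.eq.comp (Primrec.list_getElem?.comp hl hj) (Primrec.option_some.comp hx)
    · exact Primrec.eq.comp (Primrec.list_getElem?.comp hl (Primrec.succ.comp hj))
        (Primrec.option_some.comp Primrec.snd)
    · exact h.comp (hx.pair Primrec.snd)
  refine RE.of_eq ?_ fun p => (reflTransGen_iff p.1 p.2).symm
  refine exists_nat (P := fun (p : α × α) (n : ℕ) => ∃ l : List α, l[0]? = some p.1 ∧
    l[n]? = some p.2 ∧ ∀ j < n, ∃ x y, l[j]? = some x ∧ l[j + 1]? = some y ∧ R x y) ?_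
  refine ex (P := fun (q : (α × α) × ℕ) (l : List α) => l[0]? = some q.1.1 ∧
    l[q.2]? = some q.1.2 ∧ ∀ j < q.2, ∃ x y, l[j]? = some x ∧ l[j + 1]? = some y ∧ R x y) ?_
  have hn : Primrec fun u : ((α × α) × ℕ) × List α => u.1.2 := Primrec.snd.comp Primrec.fst
  refine (of_prim ?_).and ((of_prim ?_).and ?_)
  · exact Primrec.eq.comp (Primrec.list_getElem?.comp Primrec.snd (Primrec.const 0))
      (Primrec.option_some.comp (Primrec.fst.comp (Primrec.fst.comp Primrec.fst)))
  · exact Primrec.eq.comp (Primrec.list_getElem?.comp Primrec.snd hn)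
      (Primrec.option_some.comp (Primrec.snd.comp (Primrec.fst.comp Primrec.fst)))
  · refine forall_lt (P := fun (u : ((α × α) × ℕ) × List α) (j : ℕ) =>
      ∃ x y, u.2[j]? = some x ∧ u.2[j + 1]? = some y ∧ R x y) ?_ hn
    exact hstep.comp ((Primrec.snd.comp Primrec.fst).pair Primrec.snd)

/-- dependent choice along an r.e. relation, with an r.e. graph -/
theorem dc {R : α → α → Prop} (h : RE Z fun p : α × α => R p.1 p.2) (Inv : α → Prop) (a₀ : α)
    (h0 : Inv a₀) (hex : ∀ a, Inv a → ∃ b, R a b) (hinv : ∀ a b, Inv a → R a b → Inv b) :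
    ∃ f : ℕ → α, f 0 = a₀ ∧ (∀ i, Inv (f i)) ∧ (∀ i, R (f i) (f (i + 1))) ∧
      RE Z fun p : ℕ × α => f p.1 = p.2 := by
  classical
  obtain ⟨G, hG, hGR, huniq, hdom⟩ := h.uniformize
  let nx : α → α := fun a => if h : ∃ b, G a b then h.choose else a
  have hnx : ∀ a, Inv a → G a (nx a) := by
    intro a ha
    obtain ⟨b, hb⟩ := hex a ha
    have hh := hdom a b hb
    simp only [nx, hh, dif_pos]
    exact hh.choose_spec
  let f : ℕ → α := fun i => nx^[i] a₀
  have hfs : ∀ i, f (i + 1) = nx (f i) := fun i => Function.iterate_succ_apply' _ _ _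
  have hInv : ∀ i, Inv (f i) := by
    intro i
    induction i with
    | zero => exact h0
    | succ i ih => rw [hfs]; exact hinv _ _ ih (hGR _ _ (hnx _ ih))
  refine ⟨f, rfl, hInv, fun i => by rw [hfs]; exact hGR _ _ (hnx _ (hInv i)), ?_⟩
  let R' : ℕ × α → ℕ × α → Prop := fun p q => q.1 = p.1 + 1 ∧ G p.2 q.2
  have hR' : RE Z fun u : (ℕ × α) × (ℕ × α) => R' u.1 u.2 :=
    (of_prim (Primrec.eq.comp (Primrec.fst.comp Primrec.snd)
      (Primrec.succ.comp (Primrec.fst.comp Primrec.fst)))).and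
      (hG.comp ((Primrec.snd.comp Primrec.fst).pair (Primrec.snd.comp Primrec.snd)))
  have h1 : RE Z fun p : ℕ × α => Relation.ReflTransGen R' (0, a₀) p :=
    hR'.reflTransGen.comp (g := fun p : ℕ × α => ((0, a₀), p))
      ((Primrec.const _).pair Primrec.id)
  refine h1.of_eq fun p => ⟨fun hp => ?_, fun hp => ?_⟩
  · induction hp with
    | refl => rfl
    | @tail p q _ hpq ih =>
      obtain ⟨h1, h2⟩ := hpq
      rw [h1, hfs]
      rw [← ih] at h2
      exact huniq _ _ _ (hnx _ (hInv _)) h2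
  · obtain ⟨i, b⟩ := p
    simp only at hp
    subst hp
    induction i with
    | zero => exact .refl
    | succ i ih => exact ih.tail ⟨rfl, by rw [hfs]; exact hnx _ (hInv i)⟩

/-- an infinite r.e. set has an infinite decidable subset -/
theorem infinite_dec_subset {W : Set ℕ} (h : RE Z fun n : ℕ => n ∈ W) (hW : W.Infinite) :
    ∃ H ⊆ W, H.Infinite ∧ Dec Z H := by
  have hR : RE Z fun p : ℕ × ℕ => p.1 < p.2 ∧ p.2 ∈ W :=
    (of_prim Primrec.nat_lt).and (h.comp Primrec.snd)
  obtain ⟨f, -, -, hf, hgr⟩ := dc (R := fun a b => a < b ∧ b ∈ W) hR (fun _ => True) 0 trivial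
    (fun a _ => by
      obtain ⟨b, hb, hab⟩ := hW.exists_gt a
      exact ⟨b, hab, hb⟩) (fun _ _ _ _ => trivial)
  have hmono : StrictMono f := strictMono_nat_of_lt_succ fun i => (hf i).1
  refine ⟨Set.range fun i => f (i + 1), ?_, ?_, ?_, ?_⟩
  · rintro _ ⟨i, rfl⟩
    exact (hf i).2
  · exact Set.infinite_range_of_injective fun i j hij => by
      have := hmono.injective hij
      omega
  · refine exists_nat (P := fun (n i : ℕ) => f (i + 1) = n) ?_
    exact hgr.comp ((Primrec.succ.comp Primrec.snd).pair Primrec.fst)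
  · have h1 : RE Z fun n : ℕ => ∀ i < n, ∃ y, f (i + 1) = y ∧ ¬ y = n := by
      refine forall_lt (P := fun (n i : ℕ) => ∃ y, f (i + 1) = y ∧ ¬ y = n) ?_ Primrec.id
      refine exists_nat (P := fun (p : ℕ × ℕ) (y : ℕ) => f (p.2 + 1) = y ∧ ¬ y = p.1) ?_
      refine RE.and (hgr.comp ((Primrec.succ.comp (Primrec.snd.comp Primrec.fst)).pair
        Primrec.snd)) (of_prim ?_)
      exact (Primrec.eq.comp Primrec.snd (Primrec.fst.comp Primrec.fst)).not
    refine h1.of_eq fun n => ?_
    simp only [exists_eq_left', Set.mem_range, not_exists]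
    constructor
    · intro h i
      by_cases hi : i < n
      · exact h i hi
      · have := hmono.id_le (i + 1)
        simp only [id] at this
        omega
    · intro h i _
      exact h i

end RE

open Nat.Partrec (Code)

/-- the diagonal of the standard numbering -/
def diag (n : ℕ) : Part ℕ := (Denumerable.ofNat Code n).eval n

theorem mem_diag_iff (n v : ℕ) :
    v ∈ diag n ↔ ∃ k, Code.evaln k (Denumerable.ofNat Code n) n = some v := by
  unfold diag
  rw [Code.evaln_complete]
  rfl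

theorem primrec_evaln_diag :
    Primrec fun p : ℕ × ℕ => Code.evaln p.1 (Denumerable.ofNat Code p.2) p.2 :=
  Code.primrec_evaln.comp (g := fun p : ℕ × ℕ => ((p.1, Denumerable.ofNat Code p.2), p.2))
    ((Primrec.fst.pair ((Primrec.ofNat Code).comp Primrec.snd)).pair Primrec.snd)

theorem re_diag (Z : Set ℕ) : RE Z fun p : ℕ × ℕ => p.2 ∈ diag p.1 := by
  refine RE.of_eq ?_ fun p => (mem_diag_iff p.1 p.2).symm
  refine RE.exists_nat (P := fun (p : ℕ × ℕ) (k : ℕ) =>
    Code.evaln k (Denumerable.ofNat Code p.1) p.1 = some p.2) (RE.of_prim ?_)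
  exact Primrec.eq.comp (primrec_evaln_diag.comp (g := fun q : (ℕ × ℕ) × ℕ => (q.2, q.1.1))
    (Primrec.snd.pair (Primrec.fst.comp Primrec.fst)))
    (Primrec.option_some.comp (Primrec.snd.comp Primrec.fst))

/-- `Z` computes no diagonally non-recursive function -/
def Good (Z : Set ℕ) : Prop :=
  ∀ f : ℕ → ℕ, (RE Z fun p : ℕ × ℕ => f p.1 = p.2) → ∃ n, f n ∈ diag n

theorem Good.of_dec {Z Z' : Set ℕ} (h : Good Z) (hd : Dec Z Z') : Good Z' :=
  fun f hf => h f (RE.trans hd hf)

theorem Good.rel {Z : Set ℕ} (h : Good Z) {S : ℕ → ℕ → Prop}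
    (hS : RE Z fun p : ℕ × ℕ => S p.1 p.2) (htot : ∀ n, ∃ v, S n v) :
    ∃ n v, S n v ∧ v ∈ diag n := by
  obtain ⟨G, hG, hGS, huniq, hdom⟩ := hS.uniformize
  have : ∀ n, ∃ v, G n v := fun n => by
    obtain ⟨v, hv⟩ := htot n
    exact hdom n v hv
  choose f hf using this
  obtain ⟨n, hn⟩ := h f (hG.of_eq fun p =>
    ⟨fun hp => huniq _ _ _ (hf _) hp, fun hp => hp ▸ hf _⟩)
  exact ⟨n, f n, hGS _ _ (hf n), hn⟩

theorem good_empty : Good ∅ := by
  classical
  rintro f ⟨R, hR, H⟩
  have hseg : Primrec (seg ∅) := by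
    refine (Primrec.list_map Primrec.list_range
      (Primrec.const false : Primrec fun _ : ℕ × ℕ => false).to₂).of_eq fun k => ?_
    simp [seg]
  let P : ℕ → ℕ → Prop := fun n w => R (n, w.unpair.1) (seg ∅ w.unpair.2)
  have hP : PrimrecPred fun p : ℕ × ℕ => P p.1 p.2 :=
    hR.comp (Primrec.fst.pair (Primrec.fst.comp (Primrec.unpair.comp Primrec.snd)))
      (hseg.comp (Primrec.snd.comp (Primrec.unpair.comp Primrec.snd)))
  have hex : ∀ n, ∃ w, P n w := fun n => by
    obtain ⟨k, hk⟩ := (H (n, f n)).1 rfl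
    exact ⟨Nat.pair (f n) k, by simpa [P] using hk⟩
  have hc : Computable fun n => (Nat.find (hex n)).unpair.1 :=
    (Primrec.fst.comp Primrec.unpair).to_comp.comp (Computable.find hP.computablePred hex)
  have hf : Computable f := hc.of_eq fun n =>
    ((H (n, (Nat.find (hex n)).unpair.1)).2 ⟨_, Nat.find_spec (hex n)⟩).symm
  obtain ⟨c, hc⟩ := Code.exists_code.1 (Partrec.nat_iff.1 hf)
  refine ⟨Encodable.encode c, ?_⟩
  simp [diag, hc]

/-- effective join -/
def join (A B : Set ℕ) : Set ℕ := {n | (n % 2 = 0 ∧ n / 2 ∈ A) ∨ (¬ n % 2 = 0 ∧ n / 2 ∈ B)}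

theorem join_family {Z : Set ℕ} {α : Type} [Primcodable α] {A B : α → Set ℕ}
    (hA : RE Z fun p : α × ℕ => p.2 ∈ A p.1) (hA' : RE Z fun p : α × ℕ => p.2 ∉ A p.1)
    (hB : RE Z fun p : α × ℕ => p.2 ∈ B p.1) (hB' : RE Z fun p : α × ℕ => p.2 ∉ B p.1) :
    (RE Z fun p : α × ℕ => p.2 ∈ join (A p.1) (B p.1)) ∧
      RE Z fun p : α × ℕ => p.2 ∉ join (A p.1) (B p.1) := by
  have he : PrimrecPred fun p : α × ℕ => p.2 % 2 = 0 :=
    Primrec.eq.comp (Primrec.nat_mod.comp Primrec.snd (Primrec.const 2)) (Primrec.const 0)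
  have hh : Primrec fun p : α × ℕ => (p.1, p.2 / 2) :=
    Primrec.fst.pair (Primrec.nat_div.comp Primrec.snd (Primrec.const 2))
  constructor
  · exact ((RE.of_prim he).and (hA.comp hh)).or ((RE.of_prim he.not).and (hB.comp hh))
  · refine (((RE.of_prim he).and (hA'.comp hh)).or
      ((RE.of_prim he.not).and (hB'.comp hh))).of_eq fun p => ?_
    simp only [join, Set.mem_setOf_eq]
    tauto

theorem Dec.join {Z A B : Set ℕ} (hA : Dec Z A) (hB : Dec Z B) : Dec Z (join A B) := by
  have := join_family (Z := Z) (α := ℕ) (A := fun _ => A) (B := fun _ => B)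
    (hA.1.comp Primrec.snd) (hA.2.comp Primrec.snd) (hB.1.comp Primrec.snd)
    (hB.2.comp Primrec.snd)
  have hp : Primrec fun n : ℕ => ((0 : ℕ), n) := (Primrec.const 0).pair Primrec.id
  exact ⟨this.1.comp hp, this.2.comp hp⟩

theorem dec_join_left (A B : Set ℕ) : Dec (join A B) A := by
  constructor
  · refine (RE.mem_oracle.comp Primrec.nat_double).of_eq fun n => ?_
    simp [join]
  · refine (RE.not_mem_oracle.comp Primrec.nat_double).of_eq fun n => ?_
    simp [join]

theorem dec_join_right (A B : Set ℕ) : Dec (join A B) B := by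
  have h1 : ∀ n : ℕ, (2 * n + 1) / 2 = n := fun n => by omega
  constructor
  · refine (RE.mem_oracle.comp Primrec.nat_double_succ).of_eq fun n => ?_
    simp [join, h1]
  · refine (RE.not_mem_oracle.comp Primrec.nat_double_succ).of_eq fun n => ?_
    simp [join, h1]

/-- the primitive recursive relations can be listed -/
theorem exists_enum (α : Type) [Primcodable α] :
    ∃ e : ℕ → α → List Bool → Prop, (∀ i, PrimrecRel (e i)) ∧
      ∀ R, PrimrecRel R → ∃ i, e i = R := by
  classical
  let g : Code → α → List Bool → Prop := fun c a s =>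
    Encodable.encode true ∈ c.eval (Encodable.encode (a, s))
  have hsub : {R : α → List Bool → Prop | PrimrecRel R} ⊆ Set.range g := by
    intro R hR
    have h1 : Partrec fun p : α × List Bool => (Part.some (decide (R p.1 p.2))) :=
      (PrimrecPred.decide hR).to_comp
    obtain ⟨c, hc⟩ := Code.exists_code.1 h1
    refine ⟨c, ?_⟩
    funext a s
    simp only [g, hc]
    by_cases h : R a s <;> simp [h]
  have hcount : {R : α → List Bool → Prop | PrimrecRel R}.Countable :=
    (Set.countable_range g).mono hsub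
  have hne : {R : α → List Bool → Prop | PrimrecRel R}.Nonempty :=
    ⟨fun _ s => s = s, Primrec.eq.comp Primrec.snd Primrec.snd⟩
  obtain ⟨e, he⟩ := hcount.exists_eq_range hne
  refine ⟨e, fun i => ?_, fun R hR => ?_⟩
  · have : e i ∈ {R : α → List Bool → Prop | PrimrecRel R} := he ▸ Set.mem_range_self i
    exact this
  · have : R ∈ Set.range e := he ▸ hR
    exact this

end Pool.Agent.P.MP_c78104_lc
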